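import Pool.Agent.Run7.h473.MD.Iface

set_option autoImplicit false

/-!
Project MD (helper473), piece CEN: the centre.
-/

namespace Pool.Agent.Run7.h473.MD

open Complex Filter Topology MeasureTheory Set
open Pool.Agent.Q48.MDS

noncomputable section

theorem lower_all (hR : S_REF) {k M : ℕ} (hM : 1 ≤ M) (q : Fin (k + 1) → ℝ) (hq : ContinuesTo k M q)
    (h1 : ∀ j : Fin k, 0 < q j.succ ∧ q j.succ < 1) (S : Finset (Fin k)) :
    ContinuesTo k M (Fin.cons (q 0 + ∑ j ∈ S, (q j.succ - 1 / 2) / 2)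
      (fun j => if j ∈ S then 1 / 2 else q j.succ)) := by
  classical
  induction S using Finset.induction_on with
  | empty =>
    have e : (Fin.cons (q 0 + ∑ j ∈ (∅ : Finset (Fin k)), (q j.succ - 1 / 2) / 2)
        (fun j => if j ∈ (∅ : Finset (Fin k)) then 1 / 2 else q j.succ) : Fin (k + 1) → ℝ) = q := by
      funext i
      refine Fin.cases ?_ (fun j => ?_) i
      · simp
      · simp
    rw [e]
    exact hq
  | insert a S ha ih =>
    set p : Fin (k + 1) → ℝ := Fin.cons (q 0 + ∑ j ∈ S, (q j.succ - 1 / 2) / 2)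
      (fun j => if j ∈ S then 1 / 2 else q j.succ) with hp
    have pa : p a.succ = q a.succ := by simp [hp, ha]
    have h2 := hR k M a p hM ih (by rw [pa]; exact (h1 a).1) (by rw [pa]; exact (h1 a).2)
    have h3 := convex_continuesTo k M ih h2 (a := 1 / 2) (b := 1 / 2) (by norm_num) (by norm_num) (by norm_num)
    have e : (Fin.cons (q 0 + ∑ j ∈ insert a S, (q j.succ - 1 / 2) / 2)
        (fun j => if j ∈ insert a S then 1 / 2 else q j.succ) : Fin (k + 1) → ℝ) =
        (1 / 2 : ℝ) • p + (1 / 2 : ℝ) • rf a p := by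
      funext i
      refine Fin.cases ?_ (fun j => ?_) i
      · simp only [Fin.cons_zero, Pi.add_apply, Pi.smul_apply, smul_eq_mul, rf, if_true, pa]
        rw [Finset.sum_insert ha]
        simp only [hp, Fin.cons_zero]
        ring
      · simp only [Fin.cons_succ, Pi.add_apply, Pi.smul_apply, smul_eq_mul, rf, Fin.succ_ne_zero, if_false]
        by_cases hj : j = a
        · subst hj
          simp [pa]
          ring
        · have hj' : j.succ ≠ a.succ := fun h => hj (Fin.succ_injective _ h)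
          simp only [hj', if_false]
          have : p j.succ = if j ∈ S then 1 / 2 else q j.succ := by simp [hp]
          rw [this]
          by_cases hS : j ∈ S
          · simp [hS]
            ring
          · simp [hS, hj]
            ring
    rw [e]
    exact h3

/-- a point with all `s_j` in `(0, 1)` and `2 w + ∑ s_j ≤ 2 + k/2` gives the centre -/
theorem cen_of_point (hR : S_REF) {k M : ℕ} (hM : 1 ≤ M) (q : Fin (k + 1) → ℝ) (hq : ContinuesTo k M q)
    (h1 : ∀ j : Fin k, 0 < q j.succ ∧ q j.succ < 1) (h2 : 2 * q 0 + ∑ j : Fin k, q j.succ ≤ 2 + (k : ℝ) / 2) :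
    ContinuesTo k M (Pool.Agent.Q48.MDS.center k) := by
  have h4 := lower_all hR hM q hq h1 Finset.univ
  refine h4.up fun i => ?_
  refine Fin.cases ?_ (fun j => ?_) i
  · simp only [Fin.cons_zero, Pool.Agent.Q48.MDS.center]
    have e : ∑ j : Fin k, (q j.succ - 1 / 2) / 2 = (∑ j : Fin k, q j.succ) / 2 - k / 4 := by
      rw [← Finset.sum_div, Finset.sum_sub_distrib]
      simp only [Finset.sum_const, Finset.card_univ, Fintype.card_fin, nsmul_eq_mul]
      ring
    rw [e]
    linarith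
  · simp [Pool.Agent.Q48.MDS.center]

/-- openness of the domain at the centre -/
theorem cen_open {k M : ℕ} (h : ContinuesTo k M (Pool.Agent.Q48.MDS.center k)) (a b : ℝ) :
    ∃ δ > 0, ∀ t : ℝ, 0 < t → t < δ →
      ContinuesTo k M (Fin.cons (1 + a * t) (fun _ => 1 / 2 + b * t)) := by
  obtain ⟨Ω, hΩo, hΩc, hsub, hp, G, hG, hGe⟩ := h
  have hc : Continuous fun t : ℝ => (Fin.cons (1 + a * t) (fun _ => 1 / 2 + b * t) : Fin (k + 1) → ℝ) := by
    refine continuous_pi fun i => ?_
    refine Fin.cases ?_ (fun j => ?_) i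
    · simp only [Fin.cons_zero]
      fun_prop
    · simp only [Fin.cons_succ]
      fun_prop
  have h0 : (Fin.cons (1 + a * (0 : ℝ)) (fun _ => 1 / 2 + b * 0) : Fin (k + 1) → ℝ) =
      Pool.Agent.Q48.MDS.center k := by
    funext i
    refine Fin.cases ?_ (fun j => ?_) i
    · simp [Pool.Agent.Q48.MDS.center]
    · simp [Pool.Agent.Q48.MDS.center]
  have hev : ∀ᶠ t : ℝ in 𝓝 0, (Fin.cons (1 + a * t) (fun _ => 1 / 2 + b * t) : Fin (k + 1) → ℝ) ∈ Ω := by
    have h := hc.tendsto 0
    rw [h0] at h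
    exact h (hΩo.mem_nhds hp)
  obtain ⟨δ, hδ, hδ'⟩ := Metric.eventually_nhds_iff.mp hev
  refine ⟨δ, hδ, fun t t0 t1 => ?_⟩
  have hmem := hδ' (y := t) (by rw [Real.dist_eq, sub_zero, abs_of_pos t0]; exact t1)
  exact ⟨Ω, hΩo, hΩc, hsub, hmem, G, hG, hGe⟩

theorem t_CEN (hR : S_REF) : S_CEN := by
  intro k M hM
  constructor
  · intro h
    obtain ⟨δ, hδ, hδ'⟩ := cen_open h (-(k / 2)) 1
    set t : ℝ := min (δ / 2) (1 / 4) with ht
    have t0 : 0 < t := lt_min (by linarith) (by norm_num)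
    have t1 : t ≤ 1 / 4 := min_le_right _ _
    have t2 : t < δ := lt_of_le_of_lt (min_le_left _ _) (by linarith)
    refine ⟨_, fun j => ?_, ?_, hδ' t t0 t2⟩
    · simp only [Fin.cons_succ]
      constructor <;> linarith
    · simp only [Fin.cons_zero, Fin.cons_succ, Finset.sum_const, Finset.card_univ, Fintype.card_fin, nsmul_eq_mul]
      nlinarith
  · rintro ⟨q, h1, h2, h3⟩
    exact cen_of_point hR hM q h3 (fun j => ⟨by linarith [(h1 j).1], (h1 j).2⟩) h2

/-- the same with `0 < s_j < 1` -/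
theorem cen_iff (hR : S_REF) (k M : ℕ) (hM : 1 ≤ M) : ContinuesTo k M (Pool.Agent.Q48.MDS.center k) ↔
    ∃ p : Fin (k + 1) → ℝ, (∀ j : Fin k, 0 < p j.succ ∧ p j.succ < 1) ∧
      2 * p 0 + ∑ j : Fin k, p j.succ ≤ 2 + (k : ℝ) / 2 ∧ ContinuesTo k M p := by
  constructor
  · intro h
    obtain ⟨p, h1, h2, h3⟩ := (t_CEN hR k M hM).mp h
    exact ⟨p, fun j => ⟨by linarith [(h1 j).1], (h1 j).2⟩, h2, h3⟩
  · rintro ⟨q, h1, h2, h3⟩
    exact cen_of_point hR hM q h3 h1 h2

/-- for `k ≤ 4` any point below the hyperplane `2 w + ∑ s_j = 2 + k/2` gives the centre -/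
theorem cen_four (hR : S_REF) (hD : S_DOM) (k M : ℕ) (hk : k ≤ 4) (hM : 1 ≤ M) :
    ContinuesTo k M (Pool.Agent.Q48.MDS.center k) ↔
    ∃ p : Fin (k + 1) → ℝ, 2 * p 0 + ∑ j : Fin k, p j.succ < 2 + (k : ℝ) / 2 ∧ ContinuesTo k M p := by
  constructor
  · intro h
    obtain ⟨δ, hδ, hδ'⟩ := cen_open h (-1) 0
    refine ⟨_, ?_, hδ' (δ / 2) (by linarith) (by linarith)⟩
    simp only [Fin.cons_zero, Fin.cons_succ, Finset.sum_const, Finset.card_univ, Fintype.card_fin, nsmul_eq_mul]
    nlinarith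
  · rintro ⟨p, h1, h2⟩
    set δ : ℝ := 2 + (k : ℝ) / 2 - (2 * p 0 + ∑ j : Fin k, p j.succ) with hδ
    have δ0 : 0 < δ := by linarith
    set R : ℝ := ∑ j : Fin k, |p j.succ| + 1 with hR'
    have hs0 : 0 ≤ ∑ j : Fin k, |p j.succ| := Finset.sum_nonneg fun j _ => abs_nonneg _
    have hpR : ∀ j : Fin k, |p j.succ| ≤ R := fun j => by
      have := Finset.single_le_sum (f := fun j : Fin k => |p j.succ|) (fun j _ => abs_nonneg _) (Finset.mem_univ j)
      linarith
    have R1 : 1 ≤ R := by linarith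
    set τ : ℝ := 1 / (8 * R) with hτ
    have τ0 : 0 < τ := by positivity
    have τR : τ * R = 1 / 8 := by
      rw [hτ]
      field_simp
    have τ1 : τ ≤ 1 / 8 := by nlinarith
    have k0 : (0 : ℝ) ≤ k := Nat.cast_nonneg k
    have k4 : (k : ℝ) ≤ 4 := by exact_mod_cast hk
    set κ : ℝ := min (1 / 8) (τ * δ / (k + 1)) with hκ
    have κ0 : 0 < κ := lt_min (by norm_num) (by positivity)
    have κ1 : κ ≤ 1 / 8 := min_le_left _ _
    have κ2 : κ * (k + 1) ≤ τ * δ := by
      have h := min_le_right (1 / 8 : ℝ) (τ * δ / (k + 1))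
      have hk1 : (0 : ℝ) < k + 1 := by positivity
      calc κ * (k + 1) ≤ τ * δ / (k + 1) * (k + 1) := mul_le_mul_of_nonneg_right h hk1.le
        _ = τ * δ := by field_simp
    have hc : ContinuesTo k M (Fin.cons 1 (fun _ => 1 / 2 + κ)) := by
      refine hD k M _ hM (by simp) (fun j => by simp only [Fin.cons_succ]; linarith) ?_
      simp only [Fin.cons_succ, Finset.sum_const, Finset.card_univ, Fintype.card_fin, nsmul_eq_mul]
      rw [max_eq_left (by linarith)]
      nlinarith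
    have hq := convex_continuesTo k M hc h2 (a := 1 - τ) (b := τ) (by linarith) τ0.le (by ring)
    refine cen_of_point hR hM _ hq (fun j => ?_) ?_
    · simp only [Pi.add_apply, Pi.smul_apply, smul_eq_mul, Fin.cons_succ]
      have h5 := abs_le.mp (hpR j)
      have h6 : τ * p j.succ ≤ 1 / 8 := by nlinarith
      have h7 : -(1 / 8) ≤ τ * p j.succ := by nlinarith
      constructor <;> nlinarith
    · simp only [Pi.add_apply, Pi.smul_apply, smul_eq_mul, Fin.cons_succ, Fin.cons_zero]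
      rw [Finset.sum_add_distrib, ← Finset.mul_sum, ← Finset.mul_sum]
      simp only [Finset.sum_const, Finset.card_univ, Fintype.card_fin, nsmul_eq_mul]
      have h8 : 2 * p 0 + ∑ j : Fin k, p j.succ = 2 + (k : ℝ) / 2 - δ := by rw [hδ]; ring
      have h9 : 2 * ((1 - τ) * 1 + τ * p 0) + ((1 - τ) * (k * (1 / 2 + κ)) + τ * ∑ j : Fin k, p j.succ) =
          (1 - τ) * (2 + k / 2 + k * κ) + τ * (2 + k / 2 - δ) := by rw [← h8]; ring
      rw [h9]
      nlinarith [mul_nonneg τ0.le (mul_nonneg k0 κ0.le)]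

end

end Pool.Agent.Run7.h473.MD
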