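import Pool.Agent.Run7.h473.MD.Base

set_option autoImplicit false

/-!
Project MD (helper473), piece DOM: the points with `w ≥ 1`, `s_j > 1/2`, `∑ max (1 - s_j, 0) < r/2`.
-/

namespace Pool.Agent.Run7.h473.MD

open Complex Filter Topology MeasureTheory Set
open Pool.Agent.Q48.MDS

noncomputable section

theorem isOpen_reg (k : ℕ) (I : Finset (Fin k)) : IsOpen (reg k I) := by
  have e : reg k I = {p : Fin (k + 1) → ℝ | 1 < p 0} ∩ ⋂ j : Fin k,
      {p : Fin (k + 1) → ℝ | (if j ∈ I then (1 / 2 : ℝ) else 1) < p j.succ} := by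
    ext p
    simp only [reg, mem_setOf_eq, mem_inter_iff, mem_iInter]
  rw [e]
  refine IsOpen.inter (isOpen_lt continuous_const (continuous_apply 0)) ?_
  exact isOpen_iInter_of_finite fun j => isOpen_lt continuous_const (continuous_apply j.succ)

theorem convex_reg (k : ℕ) (I : Finset (Fin k)) : Convex ℝ (reg k I) := by
  intro p hp q hq a b ha hb hab
  have key : ∀ x y c : ℝ, c < x → c < y → c < a * x + b * y := by
    intro x y c hx hy
    have hb' : b = 1 - a := by linarith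
    subst hb'
    rcases eq_or_lt_of_le ha with h | h
    · rw [← h]
      linarith
    · nlinarith [mul_pos h (sub_pos.mpr hx), mul_nonneg hb (sub_pos.mpr hy).le]
  refine ⟨?_, fun j => ?_⟩
  · simp only [Pi.add_apply, Pi.smul_apply, smul_eq_mul]
    exact key _ _ _ hp.1 hq.1
  · simp only [Pi.add_apply, Pi.smul_apply, smul_eq_mul]
    exact key _ _ _ (hp.2 j) (hq.2 j)

theorem reg_continues {r : ℕ} (hA : S_ABS r) (hE : S_EQ) (hG : S_GLU) {k M : ℕ} (hM : 1 ≤ M)
    (I : Finset (Fin k)) (hI : I.card ≤ r) (q : Fin (k + 1) → ℝ) (hq : q ∈ reg k I) : ContinuesTo k M q := by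
  refine hG k M (reg k I) (fun z => Hs k M z * PP k z) hM (isOpen_reg k I) (convex_reg k I) ?_
    (tempered_mul (hA k M I hI) (tempered_PP k _)) ?_ q hq
  · refine ⟨fun _ => 2, ⟨by norm_num, fun j => ?_⟩, fun i => by norm_num⟩
    split_ifs <;> norm_num
  · intro z hz
    exact (hE k M hM (show z ∈ tube (orth (k + 1)) from hz.2)).symm

/-- the affine parametrisation -/
def PT (k : ℕ) (ε : ℝ) (v : Fin k → ℝ) : Fin (k + 1) → ℝ := Fin.cons (1 + ε) (fun j => 1 + ε - v j / 2)

theorem PT_continues {r : ℕ} (hA : S_ABS r) (hE : S_EQ) (hG : S_GLU) (hH : S_HYP) {k M : ℕ} (hM : 1 ≤ M)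
    {ε : ℝ} (hε : 0 < ε) (u : Fin k → ℝ) (hu : ∀ j, 0 ≤ u j ∧ u j ≤ 1) (hs : ∑ j, u j ≤ r) :
    ContinuesTo k M (PT k ε u) := by
  have hconv : Convex ℝ {v : Fin k → ℝ | ContinuesTo k M (PT k ε v)} := by
    intro v hv w hw a b ha hb hab
    have h := convex_continuesTo k M hv hw ha hb hab
    have e : PT k ε (a • v + b • w) = a • PT k ε v + b • PT k ε w := by
      funext i
      refine Fin.cases ?_ (fun j => ?_) i
      · simp only [PT, Fin.cons_zero, Pi.add_apply, Pi.smul_apply, smul_eq_mul]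
        have hb' : b = 1 - a := by linarith
        subst hb'
        ring
      · simp only [PT, Fin.cons_succ, Pi.add_apply, Pi.smul_apply, smul_eq_mul]
        have hb' : b = 1 - a := by linarith
        subst hb'
        ring
    show ContinuesTo k M (PT k ε (a • v + b • w))
    rw [e]
    exact h
  have hsub : {v : Fin k → ℝ | ∃ I : Finset (Fin k), I.card ≤ r ∧ v = fun j => if j ∈ I then 1 else 0} ⊆
      {v : Fin k → ℝ | ContinuesTo k M (PT k ε v)} := by
    rintro v ⟨I, hI, rfl⟩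
    refine reg_continues hA hE hG hM I hI _ ⟨?_, fun j => ?_⟩
    · simp only [PT, Fin.cons_zero]
      linarith
    · simp only [PT, Fin.cons_succ]
      split_ifs <;> linarith
  exact convexHull_min hsub hconv (hH r k u hu hs)

theorem dom_gen {r : ℕ} (hA : S_ABS r) (hE : S_EQ) (hG : S_GLU) (hQ : S_Q0) (hH : S_HYP) (k M : ℕ)
    (p : Fin (k + 1) → ℝ) (hM : 1 ≤ M) (h0 : 1 ≤ p 0) (hj : ∀ j : Fin k, 1 / 2 < p j.succ)
    (hs : ∑ j : Fin k, max (1 - p j.succ) 0 < (r : ℝ) / 2) : ContinuesTo k M p := by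
  have hm : ∀ j : Fin k, max (1 - p j.succ) 0 < 1 / 2 := fun j =>
    max_lt (by linarith [hj j]) (by norm_num)
  obtain ⟨η, hη, hη1, hη2⟩ : ∃ η : ℝ, 0 < η ∧ (∀ j : Fin k, max (1 - p j.succ) 0 + η ≤ 1 / 2) ∧
      ∑ j : Fin k, max (1 - p j.succ) 0 + k * η ≤ (r : ℝ) / 2 := by
    have ev1 : ∀ᶠ η : ℝ in 𝓝[>] 0, ∀ j : Fin k, max (1 - p j.succ) 0 + η ≤ 1 / 2 := by
      refine Filter.eventually_all.mpr fun j => ?_
      have : ∀ᶠ η : ℝ in 𝓝 0, η < 1 / 2 - max (1 - p j.succ) 0 := Iio_mem_nhds (by linarith [hm j])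
      filter_upwards [this.filter_mono nhdsWithin_le_nhds] with η h
      linarith
    have hk : (0 : ℝ) < k + 1 := by positivity
    have ev2 : ∀ᶠ η : ℝ in 𝓝[>] 0, ∑ j : Fin k, max (1 - p j.succ) 0 + k * η ≤ (r : ℝ) / 2 := by
      have : ∀ᶠ η : ℝ in 𝓝 0, η < ((r : ℝ) / 2 - ∑ j : Fin k, max (1 - p j.succ) 0) / (k + 1) :=
        Iio_mem_nhds (div_pos (by linarith) hk)
      filter_upwards [this.filter_mono nhdsWithin_le_nhds, self_mem_nhdsWithin] with η h hp
      rw [lt_div_iff₀ hk] at h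
      have : (0 : ℝ) < η := hp
      nlinarith
    obtain ⟨η, ⟨h1, h2⟩, h3⟩ := ((ev1.and ev2).and self_mem_nhdsWithin).exists
    exact ⟨η, h3, h1, h2⟩
  set u : Fin k → ℝ := fun j => 2 * max (1 - p j.succ) 0 + 2 * η with hu
  have hu01 : ∀ j, 0 ≤ u j ∧ u j ≤ 1 := fun j => by
    have h1 : 0 ≤ max (1 - p j.succ) 0 := le_max_right _ _
    have h2 := hη1 j
    simp only [hu]
    constructor <;> linarith
  have hus : ∑ j, u j ≤ r := by
    simp only [hu]
    rw [Finset.sum_add_distrib, ← Finset.mul_sum]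
    simp only [Finset.sum_const, Finset.card_univ, Fintype.card_fin, nsmul_eq_mul]
    nlinarith
  set t : ℝ := min (η / 4) (1 / 2) with ht
  have t0 : 0 < t := lt_min (by linarith) (by norm_num)
  have t1 : t ≤ 1 / 2 := min_le_right _ _
  have t2 : t ≤ η / 4 := min_le_left _ _
  have h5 := PT_continues hA hE hG hH hM (ε := t / 4) (by linarith) u hu01 hus
  have h6 := convex_continuesTo k M h5 (hQ k M hM) (a := 1 - t) (b := t) (by linarith) t0.le (by ring)
  refine ContinuesTo.up h6 fun i => ?_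
  refine Fin.cases ?_ (fun j => ?_) i
  · simp only [PT, Fin.cons_zero, Pi.add_apply, Pi.smul_apply, smul_eq_mul]
    nlinarith [mul_pos t0 t0]
  · simp only [PT, Fin.cons_succ, Pi.add_apply, Pi.smul_apply, smul_eq_mul]
    have h7 : 1 - p j.succ ≤ max (1 - p j.succ) 0 := le_max_left _ _
    have h8 := (hu01 j).1
    have h9 := (hu01 j).2
    have h10 : u j = 2 * max (1 - p j.succ) 0 + 2 * η := rfl
    nlinarith [mul_nonneg t0.le h8, mul_nonneg t0.le (sub_nonneg.mpr h9)]

theorem t_DOM (hA : S_ABS 4) (hE : S_EQ) (hG : S_GLU) (hQ : S_Q0) (hH : S_HYP) : S_DOM := by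
  intro k M p hM h0 hj hs
  refine dom_gen hA hE hG hQ hH k M p hM h0 hj ?_
  have : ((4 : ℕ) : ℝ) / 2 = 2 := by norm_num
  rw [this]
  exact hs

end

end Pool.Agent.Run7.h473.MD
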