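import Pool.Agent.Run7.h473.MD.Iface
import Mathlib.Analysis.Convex.KreinMilman

set_option autoImplicit false

/-!
Project MD (helper473), piece HYP (second copy): the hypersimplex, with the theorem of Krein and Milman.
-/

namespace Pool.Agent.Run7.h473.MD

open Set

noncomputable section

/-- the polytope -/
def Pol (r k : ℕ) : Set (Fin k → ℝ) := {u | (∀ j, 0 ≤ u j ∧ u j ≤ 1) ∧ ∑ j, u j ≤ r}

theorem not_ext {r k : ℕ} {u d : Fin k → ℝ} (h1 : u + d ∈ Pol r k) (h2 : u - d ∈ Pol r k) (hd : d ≠ 0) :
    u ∉ (Pol r k).extremePoints ℝ := by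
  intro h
  rw [mem_extremePoints] at h
  have h3 := (h.2 _ h1 _ h2 ⟨1 / 2, 1 / 2, by norm_num, by norm_num, by norm_num, by
    funext i
    simp only [Pi.add_apply, Pi.smul_apply, Pi.sub_apply, smul_eq_mul]
    ring⟩).1
  exact hd (by simpa using h3)

theorem isCompact_Pol (r k : ℕ) : IsCompact (Pol r k) := by
  have e : Pol r k = (Set.pi univ fun _ : Fin k => Icc (0 : ℝ) 1) ∩ {u | ∑ j, u j ≤ r} := by
    ext u
    constructor
    · rintro ⟨h1, h2⟩
      exact ⟨fun j _ => ⟨(h1 j).1, (h1 j).2⟩, h2⟩
    · rintro ⟨h1, h2⟩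
      exact ⟨fun j => ⟨(h1 j (mem_univ j)).1, (h1 j (mem_univ j)).2⟩, h2⟩
  rw [e]
  refine (isCompact_univ_pi fun _ => isCompact_Icc).inter_right ?_
  exact isClosed_le (by fun_prop) continuous_const

theorem convex_Pol (r k : ℕ) : Convex ℝ (Pol r k) := by
  intro u hu v hv a b ha hb hab
  have hb' : b = 1 - a := by linarith
  subst hb'
  refine ⟨fun j => ?_, ?_⟩
  · have h1 := hu.1 j
    have h2 := hv.1 j
    simp only [Pi.add_apply, Pi.smul_apply, smul_eq_mul]
    constructor
    · nlinarith [mul_nonneg ha h1.1, mul_nonneg hb h2.1]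
    · nlinarith [mul_nonneg ha (sub_nonneg.mpr h1.2), mul_nonneg hb (sub_nonneg.mpr h2.2)]
  · simp only [Pi.add_apply, Pi.smul_apply, smul_eq_mul]
    rw [Finset.sum_add_distrib, ← Finset.mul_sum, ← Finset.mul_sum]
    have h1 := hu.2
    have h2 := hv.2
    nlinarith [mul_nonneg ha (sub_nonneg.mpr h1), mul_nonneg hb (sub_nonneg.mpr h2)]

theorem ext_zero_one {r k : ℕ} {u : Fin k → ℝ} (hu : u ∈ (Pol r k).extremePoints ℝ) (i : Fin k) :
    u i = 0 ∨ u i = 1 := by
  classical
  by_contra hcon
  have hP : u ∈ Pol r k := extremePoints_subset hu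
  push Not at hcon
  have hi0 : 0 < u i := lt_of_le_of_ne (hP.1 i).1 (Ne.symm hcon.1)
  have hi1 : u i < 1 := lt_of_le_of_ne (hP.1 i).2 hcon.2
  by_cases hex : ∃ j, j ≠ i ∧ u j ≠ 0 ∧ u j ≠ 1
  · obtain ⟨j, hji, hj0, hj1⟩ := hex
    have hj0' : 0 < u j := lt_of_le_of_ne (hP.1 j).1 (Ne.symm hj0)
    have hj1' : u j < 1 := lt_of_le_of_ne (hP.1 j).2 hj1
    obtain ⟨δ, hδ, d1, d2, d3, d4⟩ : ∃ δ : ℝ, 0 < δ ∧ δ ≤ u i ∧ δ ≤ 1 - u i ∧ δ ≤ u j ∧ δ ≤ 1 - u j :=
      ⟨min (min (u i) (1 - u i)) (min (u j) (1 - u j)),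
        lt_min (lt_min hi0 (by linarith)) (lt_min hj0' (by linarith)),
        (min_le_left _ _).trans (min_le_left _ _), (min_le_left _ _).trans (min_le_right _ _),
        (min_le_right _ _).trans (min_le_left _ _), (min_le_right _ _).trans (min_le_right _ _)⟩
    set d : Fin k → ℝ := fun l => (if l = i then δ else 0) - (if l = j then δ else 0) with hd
    have sd : ∑ l, d l = 0 := by
      simp [hd, Finset.sum_sub_distrib]
    have bd : ∀ l, |d l| ≤ u l ∧ |d l| ≤ 1 - u l := by
      intro l
      by_cases h1 : l = i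
      · subst h1
        have h2 : l ≠ j := fun h => hji h.symm
        simp only [hd, if_true, h2, if_false, sub_zero, abs_of_pos hδ]
        exact ⟨d1, d2⟩
      · by_cases h2 : l = j
        · subst h2
          simp only [hd, if_true, h1, if_false, zero_sub, abs_neg, abs_of_pos hδ]
          exact ⟨d3, d4⟩
        · simp only [hd, h1, h2, if_false, sub_zero, abs_zero]
          exact ⟨(hP.1 l).1, by linarith [(hP.1 l).2]⟩
    refine not_ext (d := d) ⟨fun l => ?_, ?_⟩ ⟨fun l => ?_, ?_⟩ ?_ hu
    · have h1 := bd l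
      have h2 := abs_le.mp h1.1
      have h3 := abs_le.mp h1.2
      simp only [Pi.add_apply]
      constructor <;> linarith
    · simp only [Pi.add_apply, Finset.sum_add_distrib, sd, add_zero]
      exact hP.2
    · have h1 := bd l
      have h2 := abs_le.mp h1.1
      have h3 := abs_le.mp h1.2
      simp only [Pi.sub_apply]
      constructor <;> linarith
    · simp only [Pi.sub_apply, Finset.sum_sub_distrib, sd, sub_zero]
      exact hP.2
    · intro h
      have := congrFun h i
      have hij : i ≠ j := fun h => hji h.symm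
      simp [hd, hij] at this
      exact hδ.ne' this
  · push Not at hex
    -- the other coordinates are 0 or 1
    have hint : ∃ m : ℕ, ∑ l ∈ Finset.univ.erase i, u l = m := by
      refine ⟨((Finset.univ.erase i).filter fun l => u l = 1).card, ?_⟩
      rw [Finset.card_eq_sum_ones, Nat.cast_sum, Finset.sum_filter]
      refine Finset.sum_congr rfl fun l hl => ?_
      by_cases h0 : u l = 0
      · simp [h0]
      · have := hex l (Finset.ne_of_mem_erase hl) h0
        simp [this]
    obtain ⟨m, hm⟩ := hint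
    have hsum : ∑ l, u l = u i + m := by
      rw [← hm, Finset.add_sum_erase _ _ (Finset.mem_univ i)]
    have hmr : (m : ℝ) + 1 ≤ r := by
      have h1 := hP.2
      rw [hsum] at h1
      have h2 : (m : ℝ) < r := by linarith
      have h3 : m < r := by exact_mod_cast h2
      exact_mod_cast h3
    obtain ⟨δ, hδ, d1, d2⟩ : ∃ δ : ℝ, 0 < δ ∧ δ ≤ u i ∧ δ ≤ 1 - u i :=
      ⟨min (u i) (1 - u i), lt_min hi0 (by linarith), min_le_left _ _, min_le_right _ _⟩
    set d : Fin k → ℝ := fun l => if l = i then δ else 0 with hd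
    have sd : ∑ l, d l = δ := by simp [hd]
    have bd : ∀ l, |d l| ≤ u l ∧ |d l| ≤ 1 - u l := by
      intro l
      by_cases h1 : l = i
      · subst h1
        simp only [hd, if_true, abs_of_pos hδ]
        exact ⟨d1, d2⟩
      · simp only [hd, h1, if_false, abs_zero]
        exact ⟨(hP.1 l).1, by linarith [(hP.1 l).2]⟩
    refine not_ext (d := d) ⟨fun l => ?_, ?_⟩ ⟨fun l => ?_, ?_⟩ ?_ hu
    · have h1 := bd l
      have h2 := abs_le.mp h1.1
      have h3 := abs_le.mp h1.2
      simp only [Pi.add_apply]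
      constructor <;> linarith
    · simp only [Pi.add_apply, Finset.sum_add_distrib, sd, hsum]
      linarith
    · have h1 := bd l
      have h2 := abs_le.mp h1.1
      have h3 := abs_le.mp h1.2
      simp only [Pi.sub_apply]
      constructor <;> linarith
    · simp only [Pi.sub_apply, Finset.sum_sub_distrib, sd, hsum]
      linarith
    · intro h
      have := congrFun h i
      simp [hd] at this
      exact hδ.ne' this

theorem t_HYP : S_HYP := by
  classical
  intro r k u hu hs
  set S : Set (Fin k → ℝ) := {v : Fin k → ℝ | ∃ I : Finset (Fin k), I.card ≤ r ∧ v = fun j => if j ∈ I then 1 else 0}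
    with hS
  have hfin : S.Finite := by
    have : S ⊆ Set.range fun I : Finset (Fin k) => (fun j => if j ∈ I then (1 : ℝ) else 0) := by
      rintro v ⟨I, _, rfl⟩
      exact ⟨I, rfl⟩
    exact (Set.finite_range _).subset this
  have hext : (Pol r k).extremePoints ℝ ⊆ S := by
    intro v hv
    have hP : v ∈ Pol r k := extremePoints_subset hv
    refine ⟨Finset.univ.filter fun j => v j = 1, ?_, ?_⟩
    · have h1 : ((Finset.univ.filter fun j => v j = 1).card : ℝ) ≤ r := by
        refine le_trans (le_of_eq ?_) hP.2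
        rw [Finset.card_eq_sum_ones, Nat.cast_sum, Finset.sum_filter]
        refine Finset.sum_congr rfl fun l _ => ?_
        rcases ext_zero_one hv l with h | h <;> simp [h]
      exact_mod_cast h1
    · funext j
      rcases ext_zero_one hv j with h | h <;> simp [h]
  have h1 : u ∈ Pol r k := ⟨hu, hs⟩
  have h2 := closure_convexHull_extremePoints (isCompact_Pol r k) (convex_Pol r k)
  rw [← h2] at h1
  have h3 : closure (convexHull ℝ ((Pol r k).extremePoints ℝ)) ⊆ convexHull ℝ S :=
    closure_minimal (convexHull_mono hext) (hfin.isCompact_convexHull ℝ).isClosed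
  exact h3 h1

end

end Pool.Agent.Run7.h473.MD
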