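import Pool.Agent.Run7.h473.MD.Iface
import Pool.Agent.Run7.h894.MD.Sh
import Pool.Agent.N879.QM.Afs

set_option autoImplicit false

/-! Project MD (helper473), piece M4A, by helper894 (copy of `Run7/h894/MD/M4A.lean` without one superfluous line). -/

namespace Pool.Agent.Run7.h894.MD

open Complex Filter Topology MeasureTheory Set
open Pool.Agent.N879.QM Pool.Agent.Run7.h473.MD Pool.Agent

lemma int_line_two {F : ℝ → ℂ} (hF : Continuous F) {A : ℝ} (hA : 0 ≤ A)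
    (hb : ∀ t, ‖F t‖ ≤ A * (1 + |t|) ^ 2) :
    Integrable (fun t : ℝ => F t * Complex.Gamma (((2 : ℝ) : ℂ) + t * I)) := by
  obtain ⟨C, hC0, hC⟩ := gamma_decay
  refine Integrable.mono' (int_exp_neg_abs.const_mul (A * C * 32))
    (hF.mul gamma_two_cont).aestronglyMeasurable (Eventually.of_forall fun t => ?_)
  have h3 := hC (((2 : ℝ) : ℂ) + t * I) (by simp; norm_num) (by simp; norm_num)
  have e3 : (((2 : ℝ) : ℂ) + t * I).im = t := by simp
  rw [e3] at h3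
  rw [norm_mul]
  calc ‖F t‖ * ‖Complex.Gamma (((2 : ℝ) : ℂ) + t * I)‖ ≤
        (A * (1 + |t|) ^ 2) * (C * Real.exp (-(5 / 4) * |t|)) :=
        mul_le_mul (hb t) h3 (norm_nonneg _) (by positivity)
    _ = A * C * ((1 + |t|) ^ 2 * Real.exp (-(5 / 4) * |t|)) := by ring
    _ ≤ A * C * (32 * Real.exp (-|t|)) :=
        mul_le_mul_of_nonneg_left (quad_exp (abs_nonneg _)) (by positivity)
    _ = _ := by ring

lemma int_line_neg {c : ℝ} (hc : 0 < c) (hc' : c ≤ 3 / 4) {F : ℝ → ℂ} (hF : Continuous F) {A : ℝ} (hA : 0 ≤ A)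
    (hb : ∀ t, ‖F t‖ ≤ A * (1 + |t|) ^ 2) :
    Integrable (fun t : ℝ => F t * Complex.Gamma (((-c : ℝ) : ℂ) + t * I)) := by
  obtain ⟨C, hC0, hC⟩ := gamma_decay
  refine Integrable.mono' (int_exp_neg_abs.const_mul (A * (C / c) * 32))
    (hF.mul (gamma_neg_cont hc hc')).aestronglyMeasurable (Eventually.of_forall fun t => ?_)
  have h3 := gamma_neg hc hc' hC t
  rw [norm_mul]
  calc ‖F t‖ * ‖Complex.Gamma (((-c : ℝ) : ℂ) + t * I)‖ ≤
        (A * (1 + |t|) ^ 2) * (C / c * Real.exp (-(5 / 4) * |t|)) :=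
        mul_le_mul (hb t) h3 (norm_nonneg _) (by positivity)
    _ = A * (C / c) * ((1 + |t|) ^ 2 * Real.exp (-(5 / 4) * |t|)) := by ring
    _ ≤ A * (C / c) * (32 * Real.exp (-|t|)) :=
        mul_le_mul_of_nonneg_left (quad_exp (abs_nonneg _)) (by positivity)
    _ = _ := by ring

lemma one_le_quad (t : ℝ) : 1 ≤ (1 + |t|) ^ 2 := by
  have := abs_nonneg t
  nlinarith

lemma Ypow_cont {Y : ℝ} (hY : 1 ≤ Y) (a : ℂ) : Continuous (fun t : ℝ => (Y : ℂ) ^ (a + t * I)) := by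
  have hY0 : (Y : ℂ) ≠ 0 := by
    have : Y ≠ 0 := by linarith
    exact_mod_cast this
  exact Continuous.const_cpow (by fun_prop) (Or.inl hY0)

lemma Ypow_line {Y : ℝ} (hY : 1 ≤ Y) (a t : ℝ) : ‖(Y : ℂ) ^ ((a : ℂ) + t * I)‖ = Y ^ a := by
  rw [norm_Ypow hY]
  simp

/-- `∫ Y^u Γ(u)` on `Re u = -c` -/
theorem mb_neg {c : ℝ} (hc : 0 < c) (hc' : c ≤ 3 / 4) {Y : ℝ} (hY : 1 ≤ Y) :
    ∫ t : ℝ, (Y : ℂ) ^ (((-c : ℝ) : ℂ) + t * I) * Complex.Gamma (((-c : ℝ) : ℂ) + t * I) =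
      2 * Real.pi * ((Real.exp (-(1 / Y)) - 1 : ℝ) : ℂ) := by
  set J : ℝ → ℂ := fun Y => ∫ t : ℝ, (Y : ℂ) ^ (((-c : ℝ) : ℂ) + t * I) *
    Complex.Gamma (((-c : ℝ) : ℂ) + t * I) with hJ
  have hi1 : ∀ Y : ℝ, 1 ≤ Y → Integrable (fun t : ℝ => (Y : ℂ) ^ (((-c : ℝ) : ℂ) + t * I) *
      Complex.Gamma (((-c : ℝ) : ℂ) + t * I)) := by
    intro Y hY
    refine int_line_neg hc hc' (Ypow_cont hY _) (A := Y ^ (-c)) (by positivity) fun t => ?_
    rw [Ypow_line hY]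
    exact le_mul_of_one_le_right (by positivity) (one_le_quad t)
  have hi2 : ∀ Y : ℝ, 1 ≤ Y → Integrable (fun t : ℝ => (Y : ℂ) ^ (((2 : ℝ) : ℂ) + t * I) *
      Complex.Gamma (((2 : ℝ) : ℂ) + t * I)) := by
    intro Y hY
    refine int_line_two (Ypow_cont hY _) (A := Y ^ (2 : ℝ)) (by positivity) fun t => ?_
    rw [Ypow_line hY]
    exact le_mul_of_one_le_right (by positivity) (one_le_quad t)
  have h1 : ∀ Y0 : ℝ, 1 ≤ Y0 → J Y - J Y0 =
      2 * Real.pi * ((Real.exp (-(1 / Y)) : ℝ) : ℂ) - 2 * Real.pi * ((Real.exp (-(1 / Y0)) : ℝ) : ℂ) := by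
    intro Y0 hY0
    have hYn : (Y : ℂ) ≠ 0 := by
      have : Y ≠ 0 := by linarith
      exact_mod_cast this
    have hY0n : (Y0 : ℂ) ≠ 0 := by
      have : Y0 ≠ 0 := by linarith
      exact_mod_cast this
    have hs := gamma_shift (g := fun u => (Y : ℂ) ^ u - (Y0 : ℂ) ^ u)
      (by
        intro u
        exact (differentiableAt_id.const_cpow (Or.inl hYn)).sub
          (differentiableAt_id.const_cpow (Or.inl hY0n)))
      (by simp) hc hc' (A := Y ^ (2 : ℝ) + Y0 ^ (2 : ℝ)) (by positivity)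
      (by
        intro u _ hu2
        have h3 : ‖(Y : ℂ) ^ u‖ ≤ Y ^ (2 : ℝ) := by
          rw [norm_Ypow hY]
          exact Real.rpow_le_rpow_of_exponent_le hY hu2
        have h4 : ‖(Y0 : ℂ) ^ u‖ ≤ Y0 ^ (2 : ℝ) := by
          rw [norm_Ypow hY0]
          exact Real.rpow_le_rpow_of_exponent_le hY0 hu2
        calc ‖(Y : ℂ) ^ u - (Y0 : ℂ) ^ u‖ ≤ ‖(Y : ℂ) ^ u‖ + ‖(Y0 : ℂ) ^ u‖ := norm_sub_le _ _
          _ ≤ Y ^ (2 : ℝ) + Y0 ^ (2 : ℝ) := add_le_add h3 h4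
          _ ≤ (Y ^ (2 : ℝ) + Y0 ^ (2 : ℝ)) * (1 + |u.im|) ^ 2 :=
              le_mul_of_one_le_right (by positivity) (one_le_quad _))
    simp only [sub_mul] at hs
    rw [integral_sub (hi1 Y hY) (hi1 Y0 hY0), integral_sub (hi2 Y hY) (hi2 Y0 hY0),
      mb_two (ω := 1 / Y) (by positivity) (by simp), mb_two (ω := 1 / Y0) (by positivity) (by simp)] at hs
    exact hs
  have h2 : Tendsto (fun Y0 : ℝ => J Y0) atTop (𝓝 0) := by
    have hz : Tendsto (fun Y0 : ℝ => Y0 ^ (-c) *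
        ∫ t : ℝ, ‖Complex.Gamma (((-c : ℝ) : ℂ) + t * I)‖) atTop (𝓝 0) := by
      have := (tendsto_rpow_neg_atTop hc).mul_const (∫ t : ℝ, ‖Complex.Gamma (((-c : ℝ) : ℂ) + t * I)‖)
      simpa using this
    refine squeeze_zero_norm' ?_ hz
    filter_upwards [eventually_ge_atTop 1] with Y0 hY0
    refine (norm_integral_le_integral_norm _).trans (le_of_eq ?_)
    rw [← integral_const_mul]
    refine integral_congr_ae (Eventually.of_forall fun t => ?_)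
    simp only
    rw [norm_mul, Ypow_line hY0]
  have h3 : Tendsto (fun Y0 : ℝ => 2 * Real.pi * ((Real.exp (-(1 / Y)) : ℝ) : ℂ) -
      2 * Real.pi * ((Real.exp (-(1 / Y0)) : ℝ) : ℂ)) atTop
      (𝓝 (2 * Real.pi * ((Real.exp (-(1 / Y)) : ℝ) : ℂ) - 2 * Real.pi * ((1 : ℝ) : ℂ))) := by
    have h4 : Tendsto (fun Y0 : ℝ => Real.exp (-(1 / Y0))) atTop (𝓝 1) := by
      have h5 : Tendsto (fun Y0 : ℝ => -(1 / Y0)) atTop (𝓝 0) := by
        have := (tendsto_inv_atTop_zero (𝕜 := ℝ)).neg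
        simpa [one_div] using this
      have h6 := (Real.continuous_exp.tendsto 0).comp h5
      rw [Real.exp_zero] at h6
      exact h6
    have h7 := (Complex.continuous_ofReal.tendsto 1).comp h4
    exact (h7.const_mul _).const_sub _
  have h4 : Tendsto (fun Y0 : ℝ => J Y - J Y0) atTop (𝓝 (J Y - 0)) := h2.const_sub _
  have h5 : (fun Y0 : ℝ => J Y - J Y0) =ᶠ[atTop] (fun Y0 : ℝ => 2 * Real.pi * ((Real.exp (-(1 / Y)) : ℝ) : ℂ) -
      2 * Real.pi * ((Real.exp (-(1 / Y0)) : ℝ) : ℂ)) := by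
    filter_upwards [eventually_ge_atTop 1] with Y0 hY0
    exact h1 Y0 hY0
  have h6 := tendsto_nhds_unique (h4.congr' h5) h3
  rw [sub_zero] at h6
  refine h6.trans ?_
  push_cast
  ring

/-- coefficients of `L²` -/
noncomputable def aa (q n : ℕ) : ℂ := (n.divisors.card : ℂ) * vl 1 q n

lemma aa_zero (q : ℕ) : aa q 0 = 0 := by simp [aa]

lemma Lsq {q : ℕ} (hq : Is 1 q) {w : ℂ} (hw : 1 < w.re) :
    (Summable fun n : ℕ => aa q n * (n : ℂ) ^ (-w)) ∧ LL 1 q w ^ 2 = ∑' n : ℕ, aa q n * (n : ℂ) ^ (-w) := by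
  have : NeZero q := ⟨by have := hq.1; omega⟩
  have hs := DirichletCharacter.LSeriesSummable_of_one_lt_re (ch 1 q) hw
  have h1 := hs.convolution hs
  have h2 := LSeries_convolution' hs hs
  have e : LSeries.term (LSeries.convolution (fun n : ℕ => ch 1 q (n : ZMod q)) (fun n : ℕ => ch 1 q (n : ZMod q))) w =
      fun n : ℕ => aa q n * (n : ℂ) ^ (-w) := by
    funext n
    rcases Nat.eq_zero_or_pos n with h | h
    · subst h
      simp [aa_zero]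
    · rw [LSeries.term_of_ne_zero h.ne', LSeries.convolution_def]
      simp only
      have e2 : ∑ p ∈ n.divisorsAntidiagonal, (ch 1 q) ((p.1 : ℕ) : ZMod q) * (ch 1 q) ((p.2 : ℕ) : ZMod q) =
          aa q n := by
        have e3 : ∀ p ∈ n.divisorsAntidiagonal, (ch 1 q) ((p.1 : ℕ) : ZMod q) * (ch 1 q) ((p.2 : ℕ) : ZMod q) =
            vl 1 q n := by
          intro p hp
          rw [← map_mul, ← Nat.cast_mul, (Nat.mem_divisorsAntidiagonal.1 hp).1]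
          rfl
        rw [Finset.sum_congr rfl e3, Finset.sum_const, nsmul_eq_mul, aa]
        congr 2
        rw [← Nat.map_div_right_divisors, Finset.card_map]
      rw [e2, Complex.cpow_neg, div_eq_mul_inv]
  refine ⟨?_, ?_⟩
  · have := h1
    unfold LSeriesSummable at this
    rw [e] at this
    exact this
  · rw [LL_eq, DirichletCharacter.LFunction_eq_LSeries _ hw, sq, ← h2]
    unfold LSeries
    rw [e]

lemma ncast_cpow_line {n : ℕ} (hn : 0 < n) {Y : ℝ} (hY : 1 ≤ Y) (z u : ℂ) :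
    (n : ℂ) ^ (-(z + u)) * (Y : ℂ) ^ u = (n : ℂ) ^ (-z) * (((Y * (n : ℝ)⁻¹ : ℝ)) : ℂ) ^ u := by
  have hn0 : (n : ℂ) ≠ 0 := by exact_mod_cast hn.ne'
  have h1 : ((Y * (n : ℝ)⁻¹ : ℝ) : ℂ) ^ u = (Y : ℂ) ^ u * (n : ℂ) ^ (-u) := by
    rw [Complex.ofReal_mul, Complex.mul_cpow_ofReal_nonneg (by linarith) (by positivity)]
    congr 1
    rw [Complex.ofReal_inv, Complex.ofReal_natCast, Complex.inv_cpow, Complex.cpow_neg]
    rw [Complex.natCast_arg]
    exact Real.pi_ne_zero.symm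
  rw [h1, neg_add, Complex.cpow_add _ _ hn0]
  ring

/-- `(2πi)⁻¹ ∫_{(2)} L(z+u)² Γ(u) Y^u du` -/
theorem SS_eq {q : ℕ} (hq : Is 1 q) {z : ℂ} (hz : 0 < z.re) {Y : ℝ} (hY : 1 ≤ Y) :
    ∫ t : ℝ, LL 1 q (z + (((2 : ℝ) : ℂ) + t * I)) ^ 2 * (Y : ℂ) ^ (((2 : ℝ) : ℂ) + t * I) *
      Complex.Gamma (((2 : ℝ) : ℂ) + t * I) = 2 * Real.pi * SS q z Y := by
  have hY0 : 0 < Y := by linarith
  set G : ℝ → ℂ := fun t => (Y : ℂ) ^ (((2 : ℝ) : ℂ) + t * I) * Complex.Gamma (((2 : ℝ) : ℂ) + t * I) with hG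
  have hGi : Integrable G := by
    refine int_line_two (Ypow_cont hY _) (A := Y ^ (2 : ℝ)) (by positivity) fun t => ?_
    rw [Ypow_line hY]
    exact le_mul_of_one_le_right (by positivity) (one_le_quad t)
  set F : ℕ → ℝ → ℂ := fun n t => aa q n * (n : ℂ) ^ (-(z + (((2 : ℝ) : ℂ) + t * I))) * G t with hF
  have hre : ∀ t : ℝ, 1 < (z + (((2 : ℝ) : ℂ) + t * I)).re := by
    intro t
    simp
    linarith
  have hnorm : ∀ (n : ℕ) (t : ℝ), ‖F n t‖ = ‖aa q n * (n : ℂ) ^ (-(z + 2))‖ * ‖G t‖ := by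
    intro n t
    rcases Nat.eq_zero_or_pos n with h | h
    · subst h
      simp [hF, aa_zero]
    · have e1 : ‖(n : ℂ) ^ (-(z + (((2 : ℝ) : ℂ) + t * I)))‖ = ‖(n : ℂ) ^ (-(z + 2))‖ := by
        rw [Complex.norm_natCast_cpow_of_pos h, Complex.norm_natCast_cpow_of_pos h]
        simp
      simp only [hF]
      rw [norm_mul, norm_mul (aa q n), norm_mul (aa q n), e1]
  have hFint : ∀ n, Integrable (F n) := by
    intro n
    refine Integrable.mono' (hGi.norm.const_mul ‖aa q n * (n : ℂ) ^ (-(z + 2))‖) ?_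
      (Eventually.of_forall fun t => (hnorm n t).le)
    rcases Nat.eq_zero_or_pos n with h | h
    · subst h
      simp only [hF, aa_zero, zero_mul]
      exact aestronglyMeasurable_const
    · refine AEStronglyMeasurable.mul ?_ hGi.aestronglyMeasurable
      refine Continuous.aestronglyMeasurable (continuous_const.mul ?_)
      exact Continuous.const_cpow (by fun_prop) (Or.inl (by exact_mod_cast h.ne'))
  have hsum : Summable fun n => ∫ t, ‖F n t‖ := by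
    simp only [hnorm]
    simp only [integral_const_mul]
    exact ((Lsq hq (w := z + 2) (by simp; linarith)).1.norm).mul_right _
  have key := (hasSum_integral_of_summable_integral_norm hFint hsum).tsum_eq
  have h1 : (fun t : ℝ => ∑' n, F n t) = fun t : ℝ => LL 1 q (z + (((2 : ℝ) : ℂ) + t * I)) ^ 2 *
      (Y : ℂ) ^ (((2 : ℝ) : ℂ) + t * I) * Complex.Gamma (((2 : ℝ) : ℂ) + t * I) := by
    funext t
    simp only [hF, hG]
    rw [tsum_mul_right, ← (Lsq hq (hre t)).2]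
    ring
  rw [h1] at key
  rw [← key]
  unfold SS
  rw [← tsum_mul_left]
  congr 1
  funext n
  rcases Nat.eq_zero_or_pos n with h | h
  · subst h
    simp [hF, aa_zero]
  have e1 : ∀ t : ℝ, F n t = aa q n * (n : ℂ) ^ (-z) *
      (((Y * (n : ℝ)⁻¹ : ℝ) : ℂ) ^ (((2 : ℝ) : ℂ) + t * I) * Complex.Gamma (((2 : ℝ) : ℂ) + t * I)) := by
    intro t
    simp only [hF, hG]
    have := ncast_cpow_line h hY z (((2 : ℝ) : ℂ) + t * I)
    calc _ = aa q n * ((n : ℂ) ^ (-(z + (((2 : ℝ) : ℂ) + t * I))) * (Y : ℂ) ^ (((2 : ℝ) : ℂ) + t * I)) *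
          Complex.Gamma (((2 : ℝ) : ℂ) + t * I) := by ring
      _ = _ := by rw [this]; ring
  simp only [e1]
  have hn0 : (0 : ℝ) < n := by exact_mod_cast h
  rw [integral_const_mul, mb_two (ω := n / Y) (by positivity) (by
    rw [inv_div, div_eq_mul_inv])]
  simp only [aa]
  ring

/-- bound for `L` -/
lemma L_line {q : ℕ} (hLb : ∀ s : ℂ, 0 < s.re → ‖LL 1 q s‖ ≤ q * ‖s‖ / s.re) {z u : ℂ} {c : ℝ}
    (hc' : c ≤ 3 / 4) (hz : 3 / 8 ≤ z.re - c) (hu1 : -c ≤ u.re) (hu2 : u.re ≤ 2) :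
    ‖LL 1 q (z + u)‖ ≤ 8 / 3 * q * (‖z‖ + 2) * (1 + |u.im|) := by
  have h1 : 3 / 8 ≤ (z + u).re := by rw [Complex.add_re]; linarith
  have h2 := hLb (z + u) (by linarith)
  have h3 : ‖z + u‖ ≤ (‖z‖ + 2) * (1 + |u.im|) := by
    have h4 : ‖u‖ ≤ |u.re| + |u.im| := Complex.norm_le_abs_re_add_abs_im u
    have h5 : |u.re| ≤ 2 := abs_le.2 ⟨by linarith, hu2⟩
    have h6 := norm_add_le z u
    have h7 := norm_nonneg z
    have h8 := abs_nonneg u.im
    nlinarith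
  refine h2.trans ?_
  rw [div_le_iff₀ (by linarith)]
  have hq0 : (0 : ℝ) ≤ q := Nat.cast_nonneg q
  have h9 : (q : ℝ) * ‖z + u‖ ≤ q * ((‖z‖ + 2) * (1 + |u.im|)) := mul_le_mul_of_nonneg_left h3 hq0
  have h10 : 0 ≤ (q : ℝ) * ((‖z‖ + 2) * (1 + |u.im|)) := by positivity
  nlinarith

/-- the contour shift -/
theorem main_id {q : ℕ} (hq : Is 1 q) (hL : Differentiable ℂ (LL 1 q))
    (hLb : ∀ s : ℂ, 0 < s.re → ‖LL 1 q s‖ ≤ q * ‖s‖ / s.re) {z : ℂ} {c Y : ℝ} (hc : 0 < c)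
    (hc' : c ≤ 3 / 4) (hz : 3 / 8 ≤ z.re - c) (hY : 1 ≤ Y) :
    2 * Real.pi * LL 1 q z ^ 2 = 2 * Real.pi * SS q z Y -
      ∫ t : ℝ, LL 1 q (z + (((-c : ℝ) : ℂ) + t * I)) ^ 2 * (Y : ℂ) ^ (((-c : ℝ) : ℂ) + t * I) *
        Complex.Gamma (((-c : ℝ) : ℂ) + t * I) := by
  have hY0 : 0 < Y := by linarith
  have hYn : (Y : ℂ) ≠ 0 := by exact_mod_cast hY0.ne'
  set B : ℝ := 8 / 3 * q * (‖z‖ + 2) with hB
  have hB0 : 0 ≤ B := by positivity
  have hLu : ∀ u : ℂ, -c ≤ u.re → u.re ≤ 2 → ‖LL 1 q (z + u) ^ 2‖ ≤ B ^ 2 * (1 + |u.im|) ^ 2 := by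
    intro u h1 h2
    rw [norm_pow, ← mul_pow]
    exact pow_le_pow_left₀ (norm_nonneg _) (L_line hLb hc' hz h1 h2) 2
  have hYu : ∀ u : ℂ, u.re ≤ 2 → ‖(Y : ℂ) ^ u‖ ≤ Y ^ (2 : ℝ) := by
    intro u hu
    rw [norm_Ypow hY]
    exact Real.rpow_le_rpow_of_exponent_le hY hu
  have hcontL : ∀ a : ℂ, Continuous (fun t : ℝ => LL 1 q (z + (a + t * I)) ^ 2 * (Y : ℂ) ^ (a + t * I)) := by
    intro a
    refine Continuous.mul ((hL.continuous.comp (by fun_prop)).pow 2) (Ypow_cont hY a)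
  have hbd : ∀ a : ℝ, -c ≤ a → a ≤ 2 → ∀ t : ℝ,
      ‖LL 1 q (z + ((a : ℂ) + t * I)) ^ 2 * (Y : ℂ) ^ ((a : ℂ) + t * I)‖ ≤ B ^ 2 * Y ^ (2 : ℝ) * (1 + |t|) ^ 2 := by
    intro a h1 h2 t
    have e1 : ((a : ℂ) + t * I).re = a := by simp
    have e2 : ((a : ℂ) + t * I).im = t := by simp
    have h3 := hLu ((a : ℂ) + t * I) (by rw [e1]; exact h1) (by rw [e1]; exact h2)
    rw [e2] at h3
    rw [norm_mul]
    calc _ ≤ (B ^ 2 * (1 + |t|) ^ 2) * Y ^ (2 : ℝ) :=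
          mul_le_mul h3 (hYu _ (by rw [e1]; exact h2)) (norm_nonneg _) (by positivity)
      _ = _ := by ring
  have i1 := int_line_neg hc hc' (hcontL ((-c : ℝ) : ℂ)) (A := B ^ 2 * Y ^ (2 : ℝ)) (by positivity)
    (hbd (-c) le_rfl (by linarith))
  have i2 := int_line_two (hcontL ((2 : ℝ) : ℂ)) (A := B ^ 2 * Y ^ (2 : ℝ)) (by positivity)
    (hbd 2 (by linarith) le_rfl)
  have j1 : Integrable (fun t : ℝ => (Y : ℂ) ^ (((-c : ℝ) : ℂ) + t * I) *
      Complex.Gamma (((-c : ℝ) : ℂ) + t * I)) := by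
    refine int_line_neg hc hc' (Ypow_cont hY _) (A := Y ^ (-c)) (by positivity) fun t => ?_
    rw [Ypow_line hY]
    exact le_mul_of_one_le_right (by positivity) (one_le_quad t)
  have j2 : Integrable (fun t : ℝ => (Y : ℂ) ^ (((2 : ℝ) : ℂ) + t * I) *
      Complex.Gamma (((2 : ℝ) : ℂ) + t * I)) := by
    refine int_line_two (Ypow_cont hY _) (A := Y ^ (2 : ℝ)) (by positivity) fun t => ?_
    rw [Ypow_line hY]
    exact le_mul_of_one_le_right (by positivity) (one_le_quad t)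
  have hs := gamma_shift (g := fun u => (LL 1 q (z + u) ^ 2 - LL 1 q z ^ 2) * (Y : ℂ) ^ u)
    (by
      intro u
      refine DifferentiableAt.mul ?_ (differentiableAt_id.const_cpow (Or.inl hYn))
      refine DifferentiableAt.sub (DifferentiableAt.pow ?_ 2) (differentiableAt_const _)
      exact hL.differentiableAt.comp u (by fun_prop))
    (by simp) hc hc' (A := (B ^ 2 + ‖LL 1 q z ^ 2‖) * Y ^ (2 : ℝ)) (by positivity)
    (by
      intro u hu1 hu2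
      rw [norm_mul]
      have h3 : ‖LL 1 q (z + u) ^ 2 - LL 1 q z ^ 2‖ ≤ (B ^ 2 + ‖LL 1 q z ^ 2‖) * (1 + |u.im|) ^ 2 := by
        refine (norm_sub_le _ _).trans ?_
        have h4 := hLu u hu1 hu2
        have h5 : ‖LL 1 q z ^ 2‖ ≤ ‖LL 1 q z ^ 2‖ * (1 + |u.im|) ^ 2 :=
          le_mul_of_one_le_right (norm_nonneg _) (one_le_quad _)
        linarith
      calc _ ≤ ((B ^ 2 + ‖LL 1 q z ^ 2‖) * (1 + |u.im|) ^ 2) * Y ^ (2 : ℝ) :=
            mul_le_mul h3 (hYu u hu2) (norm_nonneg _) (by positivity)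
        _ = _ := by ring)
  have e1 : ∀ u : ℂ, (LL 1 q (z + u) ^ 2 - LL 1 q z ^ 2) * (Y : ℂ) ^ u * Complex.Gamma u =
      LL 1 q (z + u) ^ 2 * (Y : ℂ) ^ u * Complex.Gamma u - LL 1 q z ^ 2 * ((Y : ℂ) ^ u * Complex.Gamma u) := by
    intro u
    ring
  simp only [e1] at hs
  rw [integral_sub i1 (j1.const_mul _), integral_sub i2 (j2.const_mul _), integral_const_mul,
    integral_const_mul, mb_neg hc hc' hY, mb_two (ω := 1 / Y) (by positivity) (by simp),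
    SS_eq hq (by linarith) hY] at hs
  push_cast at hs ⊢
  linear_combination hs

lemma quad_exp' {x : ℝ} (hx : 0 ≤ x) : (1 + x) ^ 2 * Real.exp (-x) ≤ 8 * Real.exp (-(1 / 2 * x)) := by
  have h1 := Real.quadratic_le_exp_of_nonneg (x := x / 2) (by positivity)
  have h2 : (1 + x) ^ 2 ≤ 8 * Real.exp (x / 2) := by nlinarith
  have h3 : Real.exp (-(1 / 2 * x)) = Real.exp (x / 2) * Real.exp (-x) := by
    rw [← Real.exp_add]
    congr 1
    ring
  rw [h3, ← mul_assoc]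
  exact mul_le_mul_of_nonneg_right h2 (Real.exp_pos _).le

/-- integrability on the line `1/2 - κ` -/
lemma line_int {q : ℕ} (hL : Differentiable ℂ (LL 1 q))
    (hLb : ∀ s : ℂ, 0 < s.re → ‖LL 1 q s‖ ≤ q * ‖s‖ / s.re) {a : ℝ} (ha : 0 < a) (t : ℝ) :
    Integrable fun v : ℝ => ‖LL 1 q ((a : ℂ) + I * ((t + v : ℝ) : ℂ))‖ ^ 2 * Real.exp (-|v|) := by
  have hcont : Continuous fun v : ℝ => ‖LL 1 q ((a : ℂ) + I * ((t + v : ℝ) : ℂ))‖ ^ 2 * Real.exp (-|v|) := by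
    refine Continuous.mul (((hL.continuous.comp (by fun_prop)).norm).pow 2) (by fun_prop)
  refine Integrable.mono' ((H402R2.T4b.int_exp_abs (a := 1 / 2) (by norm_num)).const_mul
    ((q * (a + |t| + 1) / a) ^ 2 * 8)) hcont.aestronglyMeasurable (Eventually.of_forall fun v => ?_)
  have e1 : ((a : ℂ) + I * ((t + v : ℝ) : ℂ)).re = a := by simp
  have h1 := hLb ((a : ℂ) + I * ((t + v : ℝ) : ℂ)) (by rw [e1]; exact ha)
  rw [e1] at h1
  have h2 : ‖(a : ℂ) + I * ((t + v : ℝ) : ℂ)‖ ≤ (a + |t| + 1) * (1 + |v|) := by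
    refine (norm_add_le _ _).trans ?_
    rw [norm_mul, Complex.norm_I, one_mul, Complex.norm_real, Complex.norm_real, Real.norm_eq_abs,
      Real.norm_eq_abs, abs_of_pos ha]
    have h3 := abs_add_le t v
    have h4 := abs_nonneg t
    have h5 := abs_nonneg v
    nlinarith
  have h3 : ‖LL 1 q ((a : ℂ) + I * ((t + v : ℝ) : ℂ))‖ ≤ q * (a + |t| + 1) / a * (1 + |v|) := by
    refine h1.trans ?_
    rw [div_mul_eq_mul_div, mul_assoc]
    exact div_le_div_of_nonneg_right (mul_le_mul_of_nonneg_left h2 (Nat.cast_nonneg q)) ha.le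
  have h4 : ‖LL 1 q ((a : ℂ) + I * ((t + v : ℝ) : ℂ))‖ ^ 2 ≤
      (q * (a + |t| + 1) / a) ^ 2 * (1 + |v|) ^ 2 := by
    rw [← mul_pow]
    exact pow_le_pow_left₀ (norm_nonneg _) h3 2
  have h5 : ‖‖LL 1 q ((a : ℂ) + I * ((t + v : ℝ) : ℂ))‖ ^ 2 * Real.exp (-|v|)‖ =
      ‖LL 1 q ((a : ℂ) + I * ((t + v : ℝ) : ℂ))‖ ^ 2 * Real.exp (-|v|) :=
    Real.norm_of_nonneg (by positivity)
  rw [h5]
  calc _ ≤ (q * (a + |t| + 1) / a) ^ 2 * (1 + |v|) ^ 2 * Real.exp (-|v|) :=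
        mul_le_mul_of_nonneg_right h4 (Real.exp_pos _).le
    _ = (q * (a + |t| + 1) / a) ^ 2 * ((1 + |v|) ^ 2 * Real.exp (-|v|)) := by ring
    _ ≤ (q * (a + |t| + 1) / a) ^ 2 * (8 * Real.exp (-(1 / 2 * |v|))) :=
        mul_le_mul_of_nonneg_left (quad_exp' (abs_nonneg v)) (by positivity)
    _ = _ := by ring

theorem t_M4A (hLBD : S_LBD) : S_M4A := by
  intro κ hκ hκ8
  obtain ⟨C0, hC0, hC⟩ := gamma_decay
  have hpi := Real.pi_pos
  refine ⟨C0 / (2 * κ) / (2 * Real.pi), by positivity, fun q z Y hq hz1 hz2 hY => ?_⟩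
  obtain ⟨hL, hLb⟩ := hLBD q hq
  set c : ℝ := z.re - 1 / 2 + κ with hc
  have hc1 : 2 * κ ≤ c := by rw [hc]; linarith
  have hc2 : c ≤ 3 / 4 := by rw [hc]; linarith
  have hc0 : 0 < c := by linarith
  have hzc : z.re - c = 1 / 2 - κ := by rw [hc]; ring
  have key := main_id hq hL hLb hc0 hc2 (by rw [hzc]; linarith) hY
  have hY0 : 0 < Y := by linarith
  set Φ : ℝ → ℝ := fun v => ‖LL 1 q (((1 / 2 - κ : ℝ) : ℂ) + I * ((z.im + v : ℝ) : ℂ))‖ ^ 2 *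
    Real.exp (-|v|) with hΦ
  have hΦi : Integrable Φ := line_int hL hLb (a := 1 / 2 - κ) (by linarith) z.im
  have hpt : ∀ t : ℝ, z + (((-c : ℝ) : ℂ) + t * I) = ((1 / 2 - κ : ℝ) : ℂ) + I * ((z.im + t : ℝ) : ℂ) := by
    intro t
    apply Complex.ext
    · simp
      linarith
    · simp
  have hbd : ‖∫ t : ℝ, LL 1 q (z + (((-c : ℝ) : ℂ) + t * I)) ^ 2 * (Y : ℂ) ^ (((-c : ℝ) : ℂ) + t * I) *
        Complex.Gamma (((-c : ℝ) : ℂ) + t * I)‖ ≤ ∫ v : ℝ, Y ^ (-(2 * κ)) * (C0 / (2 * κ)) * Φ v := by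
    refine norm_integral_le_of_norm_le (hΦi.const_mul _) (Eventually.of_forall fun t => ?_)
    rw [norm_mul, norm_mul, hpt t, norm_pow, Ypow_line hY]
    have h1 : Y ^ (-c) ≤ Y ^ (-(2 * κ)) := Real.rpow_le_rpow_of_exponent_le hY (by linarith)
    have h2 : ‖Complex.Gamma (((-c : ℝ) : ℂ) + t * I)‖ ≤ C0 / (2 * κ) * Real.exp (-|t|) := by
      refine (gamma_neg hc0 hc2 hC t).trans ?_
      refine mul_le_mul ?_ ?_ (Real.exp_pos _).le (by positivity)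
      · exact div_le_div_of_nonneg_left hC0.le (by positivity) hc1
      · apply Real.exp_le_exp.2
        have := abs_nonneg t
        linarith
    calc ‖LL 1 q (((1 / 2 - κ : ℝ) : ℂ) + I * ((z.im + t : ℝ) : ℂ))‖ ^ 2 * Y ^ (-c) *
          ‖Complex.Gamma (((-c : ℝ) : ℂ) + t * I)‖ ≤
        ‖LL 1 q (((1 / 2 - κ : ℝ) : ℂ) + I * ((z.im + t : ℝ) : ℂ))‖ ^ 2 * Y ^ (-(2 * κ)) *
          (C0 / (2 * κ) * Real.exp (-|t|)) :=
          mul_le_mul (mul_le_mul_of_nonneg_left h1 (by positivity)) h2 (norm_nonneg _) (by positivity)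
      _ = Y ^ (-(2 * κ)) * (C0 / (2 * κ)) * Φ t := by
          simp only [hΦ]
          ring
  rw [integral_const_mul] at hbd
  have h3 : 2 * Real.pi * ‖LL 1 q z‖ ^ 2 ≤ 2 * Real.pi * ‖SS q z Y‖ +
      Y ^ (-(2 * κ)) * (C0 / (2 * κ)) * ∫ v : ℝ, Φ v := by
    have e1 : ‖(2 : ℂ) * Real.pi‖ = 2 * Real.pi := by
      rw [norm_mul, Complex.norm_real, Real.norm_of_nonneg hpi.le]
      simp
    have h4 := congrArg norm key
    rw [norm_mul, e1, norm_pow] at h4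
    rw [h4]
    refine (norm_sub_le _ _).trans ?_
    rw [norm_mul, e1]
    exact add_le_add le_rfl hbd
  have h5 : ‖LL 1 q z‖ ^ 2 ≤ ‖SS q z Y‖ + (Y ^ (-(2 * κ)) * (C0 / (2 * κ)) * ∫ v : ℝ, Φ v) / (2 * Real.pi) := by
    rw [← sub_le_iff_le_add', le_div_iff₀ (by positivity)]
    nlinarith
  refine h5.trans (le_of_eq ?_)
  ring

end Pool.Agent.Run7.h894.MD
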