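import Pool.Agent.N879.QM.Hbg
import Pool.Agent.N879.QM.Avg
import Pool.Agent.N879.QM.Uni
import Pool.Agent.Run7.h205.MD.BR1
import Pool.Agent.Run7.h205.MD.BR2
import Pool.Agent.Run7.h24.MD.ABS
import Pool.Agent.Run7.h24.MD.BIG
import Pool.Agent.Run7.h416.MD.GAM
import Pool.Agent.Run7.h473.MD.CEN
import Pool.Agent.Run7.h473.MD.DOM
import Pool.Agent.Run7.h473.MD.HYP
import Pool.Agent.Run7.h501.MD.EQ
import Pool.Agent.Run7.h501.MD.M4C
import Pool.Agent.Run7.h501.MD.M4D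
import Pool.Agent.Run7.h536.MD.Q0
import Pool.Agent.Run7.h67.MD.SER
import Pool.Agent.Run7.h713.MDS.DOM2
import Pool.Agent.Run7.h713.MDS.FEQ
import Pool.Agent.Run7.h713.MDS.GLU
import Pool.Agent.Run7.h763.MD.REF
import Pool.Agent.Run7.h894.MD.LBD
import Pool.Agent.Run7.h473.MD.M4Ae

set_option autoImplicit false

/-!
Project MD (helper473), assembly. Authors of the pieces: helper24 (ABS, BIG), helper416 (GAM; second proof helper682),
helper894 (LBD, M4A), helper67 (SER), helper501 (EQ, M4C, M4D), helper713 (FEQ, GLU, DOM2), helper763 (REF),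
helper205 (BR1, BR2), helper536 (Q0), helper473 (HYP, CEN, DOM).
-/

namespace Pool.Agent.Run7.h473.MD

open Pool.Agent.Q48.MDS Pool.Agent.N879.QM

theorem all_EQ : S_EQ := Pool.Agent.Run7.h501.MD.t_EQ Pool.Agent.Run7.h205.MD.t_BR1 Pool.Agent.Run7.h205.MD.t_BR2

theorem all_M4 : S_MOM 4 :=
  Pool.Agent.Run7.h501.MD.t_M4D Pool.Agent.Run7.h894.MD.t_LBD t_GAM
    Pool.Agent.Run7.h713.MDS.t_FEQ (Pool.Agent.Run7.h894.MD.t_M4A Pool.Agent.Run7.h894.MD.t_LBD)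
    (Pool.Agent.Run7.h501.MD.t_M4C t_HBG)

theorem all_ABS4 : S_ABS 4 :=
  Pool.Agent.Run7.h24.MD.t_ABS 4 Pool.Agent.Run7.h67.MD.t_SER Pool.Agent.Run7.h894.MD.t_LBD all_M4

theorem all_ABS2 : S_ABS 2 := fun k M I hI => all_ABS4 k M I (hI.trans (by norm_num))

theorem all_GLU : S_GLU := Pool.Agent.Run7.h713.MDS.t_GLU all_EQ all_ABS2

theorem all_Q0 : S_Q0 := Pool.Agent.Run7.h536.MD.t_Q0 (t_AVG t_UNI) Pool.Agent.Run7.h67.MD.t_SER all_EQ all_GLU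

theorem all_REF : S_REF :=
  Pool.Agent.Run7.h763.MD.t_REF all_EQ
    (Pool.Agent.Run7.h24.MD.t_BIG Pool.Agent.Run7.h67.MD.t_SER Pool.Agent.Run7.h894.MD.t_LBD)
    Pool.Agent.Run7.h713.MDS.t_FEQ t_GAM

theorem all_DOM : S_DOM := t_DOM all_ABS4 all_EQ all_GLU all_Q0 t_HYP

theorem all_DOM2 : S_DOM2 := Pool.Agent.Run7.h713.MDS.t_DOM2 all_DOM all_REF

end Pool.Agent.Run7.h473.MD
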