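import Pool.Agent.Run7.h473.MD.Iface

set_option autoImplicit false

/-!
Project MD: products of tempered functions, `PP` is tempered.
-/

namespace Pool.Agent.Run7.h473.MD

open Complex Filter Topology MeasureTheory Set
open Pool.Agent.Q48.MDS

noncomputable section

theorem tempered_mul {ι : Type*} [Fintype ι] {Ω : Set (ι → ℝ)} {F G : (ι → ℂ) → ℂ} (hF : Tempered Ω F)
    (hG : Tempered Ω G) : Tempered Ω (fun z => F z * G z) := by
  refine ⟨hF.1.mul hG.1, fun K hK hc => ?_⟩
  obtain ⟨C, N, h1⟩ := hF.2 K hK hc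
  obtain ⟨C', N', h2⟩ := hG.2 K hK hc
  refine ⟨|C| * |C'|, N + N', fun z hz => ?_⟩
  have e0 : 0 ≤ (1 + ‖fun i => (z i).im‖) ^ N := by positivity
  rw [norm_mul]
  calc ‖F z‖ * ‖G z‖ ≤ (|C| * (1 + ‖fun i => (z i).im‖) ^ N) * (|C'| * (1 + ‖fun i => (z i).im‖) ^ N') := by
        refine mul_le_mul ((h1 z hz).trans ?_) ((h2 z hz).trans ?_) (norm_nonneg _) (by positivity)
        · gcongr
          exact le_abs_self C
        · gcongr
          exact le_abs_self C'
    _ = _ := by rw [pow_add]; ring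

theorem tempered_const {ι : Type*} [Fintype ι] (Ω : Set (ι → ℝ)) (c : ℂ) : Tempered Ω (fun _ : ι → ℂ => c) :=
  ⟨differentiableOn_const c, fun _ _ _ => ⟨‖c‖, 0, fun z _ => by simp⟩⟩

theorem tempered_prod {ι κ : Type*} [Fintype ι] {Ω : Set (ι → ℝ)} (S : Finset κ) {f : κ → (ι → ℂ) → ℂ}
    (h : ∀ i ∈ S, Tempered Ω (f i)) : Tempered Ω (fun z => ∏ i ∈ S, f i z) := by
  classical
  induction S using Finset.induction_on with
  | empty =>
    simp only [Finset.prod_empty]
    exact tempered_const Ω 1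
  | insert a S ha ih =>
    simp only [Finset.prod_insert ha]
    exact tempered_mul (h a (Finset.mem_insert_self a S)) (ih fun i hi => h i (Finset.mem_insert_of_mem hi))

theorem tempered_add {ι : Type*} [Fintype ι] {Ω : Set (ι → ℝ)} {F G : (ι → ℂ) → ℂ} (hF : Tempered Ω F)
    (hG : Tempered Ω G) : Tempered Ω (fun z => F z + G z) := by
  refine ⟨hF.1.add hG.1, fun K hK hc => ?_⟩
  obtain ⟨C, N, h1⟩ := hF.2 K hK hc
  obtain ⟨C', N', h2⟩ := hG.2 K hK hc
  refine ⟨|C| + |C'|, max N N', fun z hz => ?_⟩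
  have e0 : (1 : ℝ) ≤ 1 + ‖fun i => (z i).im‖ := by linarith [norm_nonneg fun i => (z i).im]
  have m1 : (1 + ‖fun i => (z i).im‖) ^ N ≤ (1 + ‖fun i => (z i).im‖) ^ max N N' :=
    pow_le_pow_right₀ e0 (le_max_left _ _)
  have m2 : (1 + ‖fun i => (z i).im‖) ^ N' ≤ (1 + ‖fun i => (z i).im‖) ^ max N N' :=
    pow_le_pow_right₀ e0 (le_max_right _ _)
  calc ‖F z + G z‖ ≤ ‖F z‖ + ‖G z‖ := norm_add_le _ _
    _ ≤ C * (1 + ‖fun i => (z i).im‖) ^ N + C' * (1 + ‖fun i => (z i).im‖) ^ N' := add_le_add (h1 z hz) (h2 z hz)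
    _ ≤ |C| * (1 + ‖fun i => (z i).im‖) ^ max N N' + |C'| * (1 + ‖fun i => (z i).im‖) ^ max N N' := by
        gcongr
        · exact le_abs_self C
        · exact le_abs_self C'
    _ = _ := by ring

/-- coordinates are tempered -/
theorem tempered_coord {ι : Type*} [Fintype ι] (Ω : Set (ι → ℝ)) (i : ι) : Tempered Ω (fun z : ι → ℂ => z i) := by
  refine ⟨(differentiable_apply i).differentiableOn, fun K hK hc => ?_⟩
  obtain ⟨R, hR⟩ := hc.isBounded.exists_norm_le
  refine ⟨|R| + 1, 1, fun z hz => ?_⟩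
  have h1 := hR _ hz
  have h2 : |(z i).re| ≤ R := (norm_le_pi_norm (fun i => (z i).re) i).trans h1
  have h3 : |(z i).im| ≤ ‖fun i => (z i).im‖ := norm_le_pi_norm (fun i => (z i).im) i
  have h4 := Complex.norm_le_abs_re_add_abs_im (z i)
  have h5 : R ≤ |R| := le_abs_self R
  have h6 : 0 ≤ ‖fun i => (z i).im‖ := norm_nonneg _
  have h7 : 0 ≤ |R| := abs_nonneg R
  rw [pow_one]
  nlinarith

theorem tempered_PP (k : ℕ) (Ω : Set (Fin (k + 1) → ℝ)) : Tempered Ω (PP k) := by
  classical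
  have hsum : ∀ S : Finset (Fin k), Tempered Ω (fun z : Fin (k + 1) → ℂ => ∑ j ∈ S, z j.succ) := by
    intro S
    induction S using Finset.induction_on with
    | empty =>
      simp only [Finset.sum_empty]
      exact tempered_const Ω 0
    | insert a S ha ih =>
      simp only [Finset.sum_insert ha]
      exact tempered_add (tempered_coord Ω a.succ) ih
  have h : ∀ J : Finset (Fin k), Tempered Ω (fun z : Fin (k + 1) → ℂ => sigma J z - 1) := by
    intro J
    have h1 := tempered_add (tempered_add (tempered_coord Ω 0) (tempered_const Ω (-((J.card : ℂ) / 2) - 1))) (hsum J)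
    have e : (fun z : Fin (k + 1) → ℂ => sigma J z - 1) =
        fun z => z 0 + (-((J.card : ℂ) / 2) - 1) + ∑ j ∈ J, z j.succ := by
      funext z
      unfold sigma
      ring
    rw [e]
    exact h1
  exact tempered_prod Finset.univ fun J _ => h J

end

end Pool.Agent.Run7.h473.MD
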