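import Pool.Agent.Run7.h473.MD.Iface3
import Pool.Agent.Run7.h473.MD.Base
import Pool.Agent.Run7.h763.MD.REF

set_option autoImplicit false

/-!
Project MD (helper473), piece ASYG. The first theorem is the beginning of the proof of REF by helper763.
-/

namespace Pool.Agent.Run7.h473.MD

open Complex Filter Topology MeasureTheory Set
open Pool.Agent.Q48.MDS Pool.Agent.N879.QM

noncomputable section

theorem wide (hEQ : S_EQ) (hBIG : Pool.Agent.Run7.h473.MD.S_BIG) {k M : ℕ} (hM : 1 ≤ M) {p : Fin (k + 1) → ℝ}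
    (hp : ContinuesTo k M p) : ∃ (W : Set (Fin (k + 1) → ℝ)) (G : (Fin (k + 1) → ℂ) → ℂ), IsOpen W ∧ Convex ℝ W ∧
      orth (k + 1) ⊆ W ∧ p ∈ W ∧ {p : Fin (k + 1) → ℝ | (k : ℝ) + 1 < p 0 ∧ ∀ j : Fin k, 0 < p j.succ} ⊆ W ∧
      Tempered W G ∧ EqOn G (fun z => Hs k M z * PP k z)
        (tube {p : Fin (k + 1) → ℝ | (k : ℝ) + 1 < p 0 ∧ ∀ j : Fin k, 0 < p j.succ}) := by
  obtain ⟨Ω, hΩo, hΩc, hsub, hpΩ, G₀, hG₀, hGeq⟩ := hp
  obtain ⟨G₁, hG₁, hGG⟩ := bochner hΩo hΩc hG₀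
  set W₁ := convexHull ℝ Ω with hW₁
  have hΩW : Ω ⊆ W₁ := subset_convexHull ℝ Ω
  have ho₁ : IsOpen W₁ := hΩo.convexHull
  have hc₁ : Convex ℝ W₁ := convex_convexHull ℝ Ω
  have hs₁ : orth (k + 1) ⊆ W₁ := hsub.trans hΩW
  set V := {p : Fin (k + 1) → ℝ | (k : ℝ) + 1 < p 0 ∧ ∀ j : Fin k, 0 < p j.succ} with hV
  have hVo : IsOpen V := Pool.Agent.Run7.h763.MD.isOpen_V k
  have hVc : Convex ℝ V := Pool.Agent.Run7.h763.MD.convex_V k
  have hH : Tempered V (fun z => Hs k M z * PP k z) := tempered_mul (hBIG k M) (tempered_PP k V)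
  have hcom : (orth (k + 1) ∩ V).Nonempty := by
    refine ⟨fun _ => (k : ℝ) + 2, fun i => ?_, ?_, fun i => ?_⟩
    · have : (0 : ℝ) ≤ k := Nat.cast_nonneg k
      show (1 : ℝ) < (k : ℝ) + 2
      linarith
    · show (k : ℝ) + 1 < (k : ℝ) + 2
      linarith
    · have : (0 : ℝ) ≤ k := Nat.cast_nonneg k
      show (0 : ℝ) < (k : ℝ) + 2
      linarith
  have he₁ : EqOn G₁ (fun z => Hs k M z * PP k z) (tube (W₁ ∩ V)) := by
    refine eqOn_tube ((isOpen_orth _).inter hVo) hcom (ho₁.inter hVo) (hc₁.inter hVc)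
      (inter_subset_inter_left _ hs₁) (hG₁.1.mono fun z hz => hz.1) (hH.1.mono fun z hz => hz.2) (fun z hz => ?_)
    rw [hGG (hsub hz.1), hGeq hz.1]
    exact hEQ k M hM hz.1
  obtain ⟨G₂, hG₂, hG₂₁, hG₂V⟩ := tempered_glue ho₁ hVo hG₁ hH he₁
  obtain ⟨x₀, hx₀⟩ := hcom
  have hconn : IsConnected (W₁ ∪ V) :=
    ⟨⟨x₀, Or.inr hx₀.2⟩, IsPreconnected.union x₀ (hs₁ hx₀.1) hx₀.2 hc₁.isPreconnected hVc.isPreconnected⟩
  obtain ⟨G, hG, hGG₂⟩ := bochner (ho₁.union hVo) hconn hG₂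
  set W := convexHull ℝ (W₁ ∪ V) with hW
  have hUW : W₁ ∪ V ⊆ W := subset_convexHull ℝ _
  have hWo : IsOpen W := (ho₁.union hVo).convexHull
  have hWc : Convex ℝ W := convex_convexHull ℝ _
  refine ⟨W, G, hWo, hWc, (hs₁.trans subset_union_left).trans hUW, hUW (Or.inl (hΩW hpΩ)),
    subset_union_right.trans hUW, hG, fun z hz => ?_⟩
  rw [hGG₂ (show z ∈ tube (W₁ ∪ V) from Or.inr hz), hG₂V hz]

/-- the product over the nonempty subsets -/
def P1 (k : ℕ) (z : Fin (k + 1) → ℂ) : ℂ := ∏ J ∈ (Finset.univ.erase (∅ : Finset (Fin k))), (sigma J z - 1)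

theorem PP_eq (k : ℕ) (z : Fin (k + 1) → ℂ) : PP k z = (z 0 - 1) * P1 k z := by
  unfold PP P1
  rw [← Finset.mul_prod_erase Finset.univ _ (Finset.mem_univ (∅ : Finset (Fin k)))]
  simp [sigma]

theorem P1_lower {k : ℕ} {z : Fin (k + 1) → ℂ} {a c : ℝ} (ha : 0 ≤ a) (hc : 0 < c) (h0 : 1 - a ≤ (z 0).re)
    (hj : ∀ j : Fin k, a + c ≤ (z j.succ).re - 1 / 2) :
    c ^ (Finset.univ.erase (∅ : Finset (Fin k))).card ≤ ‖P1 k z‖ := by
  unfold P1
  rw [norm_prod, ← Finset.prod_const]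
  refine Finset.prod_le_prod (fun _ _ => hc.le) fun J hJ => ?_
  have hJ0 : J.Nonempty := Finset.nonempty_iff_ne_empty.mpr (Finset.ne_of_mem_erase hJ)
  have h1 : (sigma J z - 1).re = ((z 0).re - 1) + ∑ j ∈ J, ((z j.succ).re - 1 / 2) := by
    unfold sigma
    simp only [Complex.sub_re, Complex.add_re, Complex.one_re, Complex.re_sum, Finset.sum_sub_distrib,
      Finset.sum_const, nsmul_eq_mul]
    have : ((J.card : ℂ) / 2).re = (J.card : ℝ) / 2 := by simp
    rw [this]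
    ring
  have h2 : a + c ≤ ∑ j ∈ J, ((z j.succ).re - 1 / 2) := by
    obtain ⟨i, hi⟩ := hJ0
    refine (hj i).trans (Finset.single_le_sum (f := fun j : Fin k => (z j.succ).re - 1 / 2) (fun j _ => ?_) hi)
    linarith [hj j]
  have h3 : c ≤ (sigma J z - 1).re := by
    rw [h1]
    linarith
  exact h3.trans ((le_abs_self _).trans (Complex.abs_re_le_norm _))

theorem P1_ne {k : ℕ} {z : Fin (k + 1) → ℂ} {a c : ℝ} (ha : 0 ≤ a) (hc : 0 < c) (h0 : 1 - a ≤ (z 0).re)
    (hj : ∀ j : Fin k, a + c ≤ (z j.succ).re - 1 / 2) : P1 k z ≠ 0 := by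
  intro h
  have := P1_lower ha hc h0 hj
  rw [h, norm_zero] at this
  have h2 : 0 < c ^ (Finset.univ.erase (∅ : Finset (Fin k))).card := pow_pos hc _
  linarith

theorem prod_diff {k : ℕ} {κ : Type*} (S : Finset κ) (f : κ → (Fin (k + 1) → ℂ) → ℂ)
    (h : ∀ i, Differentiable ℂ (f i)) : Differentiable ℂ (fun z => ∏ i ∈ S, f i z) := by
  classical
  induction S using Finset.induction_on with
  | empty =>
    simp only [Finset.prod_empty]
    exact differentiable_const _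
  | insert a S ha ih =>
    simp only [Finset.prod_insert ha]
    exact (h a).mul ih

theorem P1_diff (k : ℕ) : Differentiable ℂ (P1 k) :=
  prod_diff _ (fun (J : Finset (Fin k)) (z : Fin (k + 1) → ℂ) => sigma J z - 1) fun J =>
    (differentiable_sigma J).sub_const 1

/-- the point `(w, s)` -/
def em {k : ℕ} (s : Fin k → ℂ) (w : ℂ) : Fin (k + 1) → ℂ := Fin.cons w s

theorem em_zero {k : ℕ} (s : Fin k → ℂ) (w : ℂ) : em s w 0 = w := rfl

theorem em_succ {k : ℕ} (s : Fin k → ℂ) (w : ℂ) (j : Fin k) : em s w j.succ = s j := rfl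

theorem em_diff {k : ℕ} (s : Fin k → ℂ) : Differentiable ℂ (em s) := by
  rw [differentiable_pi]
  intro i
  refine Fin.cases ?_ (fun j => ?_) i
  · simp only [em_zero]
    exact differentiable_id
  · simp only [em_succ]
    exact differentiable_const _

theorem em_diff2 {k : ℕ} (s : Fin k → ℂ) : Differentiable ℂ (fun ζ : ℂ => em (fun j => s j + ζ) 1) := by
  rw [differentiable_pi]
  intro i
  refine Fin.cases ?_ (fun j => ?_) i
  · simp only [em_zero]
    exact differentiable_const _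
  · simp only [em_succ]
    exact differentiable_id.const_add _

/-- the coefficients -/
def ad (k M : ℕ) (s : Fin k → ℂ) (d : ℕ) : ℂ :=
  (by classical exact if Is 1 d then vl 1 d M * ∏ j : Fin k, LL 1 d (s j) else 0)

theorem ad_summable (hL : S_LBD) (k M : ℕ) (s : Fin k → ℂ) (hs : ∀ j, 0 < (s j).re) :
    Summable (fun d : ℕ => ‖ad k M s d‖ * (d : ℝ) ^ (-((k : ℝ) + 2))) := by
  classical
  have h0 : Summable fun d : ℕ => (∏ j : Fin k, (‖s j‖ / (s j).re)) * (d : ℝ) ^ (-(2 : ℝ)) :=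
    (Real.summable_nat_rpow.mpr (by norm_num)).mul_left _
  refine Summable.of_norm_bounded h0 fun d => ?_
  have hp : 0 ≤ ∏ j : Fin k, (‖s j‖ / (s j).re) :=
    Finset.prod_nonneg fun j _ => div_nonneg (norm_nonneg _) (hs j).le
  unfold ad
  split_ifs with h
  · have d0 : (0 : ℝ) < d := by
      have := h.1
      have h2 : 0 < d := by omega
      exact_mod_cast h2
    have h1 : ‖vl 1 d M‖ ≤ 1 := DirichletCharacter.norm_le_one _ _
    have h2 : ‖∏ j : Fin k, LL 1 d (s j)‖ ≤ ∏ j : Fin k, ((d : ℝ) * (‖s j‖ / (s j).re)) := by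
      rw [norm_prod]
      refine Finset.prod_le_prod (fun _ _ => norm_nonneg _) fun j _ => ?_
      have := (hL d h).2 (s j) (hs j)
      rwa [mul_div_assoc] at this
    rw [Finset.prod_mul_distrib, Finset.prod_const, Finset.card_univ, Fintype.card_fin] at h2
    rw [norm_mul, norm_norm, norm_mul, Real.norm_of_nonneg (by positivity : 0 ≤ (d : ℝ) ^ (-((k : ℝ) + 2)))]
    have e : (d : ℝ) ^ k * (d : ℝ) ^ (-((k : ℝ) + 2)) = (d : ℝ) ^ (-(2 : ℝ)) := by
      rw [← Real.rpow_natCast, ← Real.rpow_add d0]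
      congr 1
      ring
    calc ‖vl 1 d M‖ * ‖∏ j : Fin k, LL 1 d (s j)‖ * (d : ℝ) ^ (-((k : ℝ) + 2))
        ≤ 1 * ((d : ℝ) ^ k * ∏ j : Fin k, (‖s j‖ / (s j).re)) * (d : ℝ) ^ (-((k : ℝ) + 2)) := by
          refine mul_le_mul_of_nonneg_right ?_ (by positivity)
          exact mul_le_mul h1 h2 (norm_nonneg _) (by norm_num)
      _ = (∏ j : Fin k, (‖s j‖ / (s j).re)) * ((d : ℝ) ^ k * (d : ℝ) ^ (-((k : ℝ) + 2))) := by ring
      _ = _ := by rw [e]
  · simp only [norm_zero, zero_mul]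
    positivity

theorem cd_em (k M : ℕ) (s : Fin k → ℂ) (w : ℂ) (d : ℕ) : cd k M d (em s w) = ad k M s d * (d : ℂ) ^ (-w) := by
  classical
  unfold cd ad
  split_ifs with h
  · simp only [em_zero, em_succ]
    ring
  · ring

/-- the constant -/
def hc (k : ℕ) (G : (Fin (k + 1) → ℂ) → ℂ) (s : Fin k → ℂ) (w : ℂ) : ℂ := G (em s w) / P1 k (em s w)

theorem asy_point (hS : S_SHI) (hL : S_LBD) {k M : ℕ} {W : Set (Fin (k + 1) → ℝ)} {G : (Fin (k + 1) → ℂ) → ℂ}
    (hVW : {p : Fin (k + 1) → ℝ | (k : ℝ) + 1 < p 0 ∧ ∀ j : Fin k, 0 < p j.succ} ⊆ W) (hG : Tempered W G)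
    (hGV : EqOn G (fun z => Hs k M z * PP k z)
      (tube {p : Fin (k + 1) → ℝ | (k : ℝ) + 1 < p 0 ∧ ∀ j : Fin k, 0 < p j.succ}))
    {η : ℝ} (hη : 0 < η) (hη1 : η ≤ 1 / 4) (s : Fin k → ℂ) (hs : ∀ j, 3 * η ≤ (s j).re - 1 / 2)
    (hmem : ∀ u : ℝ, 1 - 2 * η ≤ u → (Fin.cons u (fun j => (s j).re) : Fin (k + 1) → ℝ) ∈ W) :
    ∃ C : ℝ, ∀ X : ℝ, 1 ≤ X → ‖asum k M s X - hc k G s 1 * X‖ ≤ C * X ^ (1 - η) := by
  classical
  have hre : ∀ j, 0 < (s j).re := fun j => by linarith [hs j]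
  have k0 : (0 : ℝ) ≤ k := Nat.cast_nonneg k
  have hemre : ∀ w : ℂ, (fun i => (em s w i).re) = (Fin.cons w.re (fun j => (s j).re) : Fin (k + 1) → ℝ) := by
    intro w
    funext i
    refine Fin.cases ?_ (fun j => ?_) i
    · simp [em_zero]
    · simp [em_succ]
  have hin : ∀ w : ℂ, 1 - 2 * η ≤ w.re → em s w ∈ tube W := fun w hw => by
    show (fun i => (em s w i).re) ∈ W
    rw [hemre w]
    exact hmem _ hw
  have hne : ∀ w : ℂ, 1 - 2 * η ≤ w.re → P1 k (em s w) ≠ 0 := fun w hw =>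
    P1_ne (a := 2 * η) (c := η) (by linarith) hη (by rw [em_zero]; exact hw)
      (fun j => by rw [em_succ]; linarith [hs j])
  have hdiff : DifferentiableOn ℂ (hc k G s) {w | 1 - 2 * η < w.re ∧ w.re < (k : ℝ) + 3} := by
    unfold hc
    refine DifferentiableOn.div ?_ ((P1_diff k).comp (em_diff s)).differentiableOn fun w hw => hne w hw.1.le
    exact hG.1.comp (em_diff s).differentiableOn fun w hw => hin w hw.1.le
  have hbound : ∃ (C : ℝ) (N : ℕ), ∀ w : ℂ, 1 - η ≤ w.re → w.re ≤ (k : ℝ) + 2 →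
      ‖hc k G s w‖ ≤ C * (1 + |w.im|) ^ N := by
    set K : Set (Fin (k + 1) → ℝ) := (fun u : ℝ => (Fin.cons u (fun j => (s j).re) : Fin (k + 1) → ℝ)) ''
      Icc (1 - η) ((k : ℝ) + 2) with hK
    have hKc : IsCompact K := by
      refine isCompact_Icc.image ?_
      refine continuous_pi fun i => ?_
      refine Fin.cases ?_ (fun j => ?_) i
      · simp only [Fin.cons_zero]
        exact continuous_id
      · simp only [Fin.cons_succ]
        exact continuous_const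
    have hKW : K ⊆ W := by
      rintro _ ⟨u, hu, rfl⟩
      exact hmem u (by linarith [hu.1])
    obtain ⟨C, N, hC⟩ := hG.2 K hKW hKc
    set B : ℝ := ‖fun j => (s j).im‖ with hB
    have B0 : 0 ≤ B := norm_nonneg _
    set c : ℝ := η ^ (Finset.univ.erase (∅ : Finset (Fin k))).card with hcdef
    have c0 : 0 < c := pow_pos hη _
    refine ⟨|C| * (1 + B) ^ N / c, N, fun w h1 h2 => ?_⟩
    have hw : (fun i => (em s w i).re) ∈ K := by
      rw [hemre w]
      exact ⟨w.re, ⟨h1, h2⟩, rfl⟩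
    have e1 := hC _ hw
    have e2 : ‖fun i => (em s w i).im‖ ≤ |w.im| + B := by
      rw [pi_norm_le_iff_of_nonneg (by positivity)]
      intro i
      refine Fin.cases ?_ (fun j => ?_) i
      · simp only [em_zero, Real.norm_eq_abs]
        linarith
      · simp only [em_succ]
        have : ‖(s j).im‖ ≤ B := norm_le_pi_norm (fun j => (s j).im) j
        linarith [abs_nonneg w.im]
    have e3 : c ≤ ‖P1 k (em s w)‖ := P1_lower (a := η) (c := η) hη.le hη (by rw [em_zero]; exact h1)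
      (fun j => by rw [em_succ]; linarith [hs j])
    unfold hc
    rw [norm_div, div_le_iff₀ (lt_of_lt_of_le c0 e3)]
    have e4 : ‖G (em s w)‖ ≤ |C| * ((1 + B) * (1 + |w.im|)) ^ N := by
      refine e1.trans ?_
      have f0 : 0 ≤ ‖fun i => (em s w i).im‖ := norm_nonneg _
      have f1 : (1 + ‖fun i => (em s w i).im‖) ^ N ≤ ((1 + B) * (1 + |w.im|)) ^ N := by
        refine pow_le_pow_left₀ (by positivity) ?_ N
        nlinarith [abs_nonneg w.im]
      calc C * (1 + ‖fun i => (em s w i).im‖) ^ N ≤ |C| * (1 + ‖fun i => (em s w i).im‖) ^ N :=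
            mul_le_mul_of_nonneg_right (le_abs_self C) (by positivity)
        _ ≤ _ := mul_le_mul_of_nonneg_left f1 (abs_nonneg C)
    refine e4.trans ?_
    rw [mul_pow]
    have f2 : 0 ≤ |C| * (1 + B) ^ N / c * (1 + |w.im|) ^ N := by positivity
    calc |C| * ((1 + B) ^ N * (1 + |w.im|) ^ N) = |C| * (1 + B) ^ N / c * (1 + |w.im|) ^ N * c := by
          field_simp
      _ ≤ _ := mul_le_mul_of_nonneg_left e3 f2
  have heq : ∀ w : ℂ, w.re = (k : ℝ) + 2 → hc k G s w = (w - 1) * ∑' d : ℕ, ad k M s d * (d : ℂ) ^ (-w) := by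
    intro w hw
    have hV : em s w ∈ tube {p : Fin (k + 1) → ℝ | (k : ℝ) + 1 < p 0 ∧ ∀ j : Fin k, 0 < p j.succ} := by
      show (k : ℝ) + 1 < w.re ∧ ∀ j : Fin k, 0 < (s j).re
      refine ⟨?_, fun j => hre j⟩
      rw [hw]
      linarith
    have h1 := hGV hV
    simp only at h1
    unfold hc
    rw [h1, PP_eq, em_zero]
    have h2 := hne w (by rw [hw]; linarith)
    have h3 : Hs k M (em s w) = ∑' d : ℕ, ad k M s d * (d : ℂ) ^ (-w) := by
      unfold Hs
      exact tsum_congr fun d => cd_em k M s w d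
    rw [h3]
    field_simp
  obtain ⟨C, hC⟩ := hS (ad k M s) ((k : ℝ) + 2) (1 - η) (1 - 2 * η) ((k : ℝ) + 3) (hc k G s)
    (by
      unfold ad
      have : ¬ Is 1 0 := fun h => by have := h.1; omega
      simp [this])
    (by linarith) (by linarith) (by linarith) (by linarith) (by linarith)
    (ad_summable hL k M s hre) hdiff hbound heq
  refine ⟨C, fun X hX => ?_⟩
  have e : asum k M s X = ∑' d : ℕ, ad k M s d * ((Real.exp (-(d / X)) : ℝ) : ℂ) := by
    unfold asum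
    refine tsum_congr fun d => ?_
    unfold ad
    split_ifs with h
    · rfl
    · simp
  rw [e]
  exact hC X hX

theorem t_ASYG (hS : S_SHI) (hD : S_DOM) (hEQ : S_EQ) (hBIG : Pool.Agent.Run7.h473.MD.S_BIG) (hL : S_LBD) :
    S_ASYG := by
  intro k M s hM hs hsum
  have hp : ContinuesTo k M (Fin.cons 1 (fun j => (s j).re)) := by
    refine hD k M _ hM (by simp) (fun j => by simpa using hs j) ?_
    simpa using hsum
  obtain ⟨W, G, hWo, hWc, hWorth, hpW, hVW, hG, hGV⟩ := wide hEQ hBIG hM hp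
  obtain ⟨η, hη, hη1, hη2, hη3⟩ : ∃ η : ℝ, 0 < η ∧ η ≤ 1 / 4 ∧ (∀ j, 4 * η ≤ (s j).re - 1 / 2) ∧
      (Fin.cons (1 - 2 * η) (fun j => (s j).re - η) : Fin (k + 1) → ℝ) ∈ W := by
    have hc1 : Continuous fun t : ℝ => (Fin.cons (1 - 2 * t) (fun j => (s j).re - t) : Fin (k + 1) → ℝ) := by
      refine continuous_pi fun i => ?_
      refine Fin.cases ?_ (fun j => ?_) i
      · simp only [Fin.cons_zero]
        fun_prop
      · simp only [Fin.cons_succ]
        fun_prop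
    have h0 : (Fin.cons (1 - 2 * (0 : ℝ)) (fun j => (s j).re - 0) : Fin (k + 1) → ℝ) =
        Fin.cons 1 (fun j => (s j).re) := by simp
    have ev1 : ∀ᶠ t : ℝ in 𝓝[>] 0, (Fin.cons (1 - 2 * t) (fun j => (s j).re - t) : Fin (k + 1) → ℝ) ∈ W := by
      have h := hc1.tendsto 0
      rw [h0] at h
      have h' : ∀ᶠ t : ℝ in 𝓝 0, (Fin.cons (1 - 2 * t) (fun j => (s j).re - t) : Fin (k + 1) → ℝ) ∈ W :=
        h (hWo.mem_nhds hpW)
      exact h'.filter_mono nhdsWithin_le_nhds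
    have ev2 : ∀ᶠ t : ℝ in 𝓝[>] 0, t ≤ 1 / 4 := by
      have : ∀ᶠ t : ℝ in 𝓝 0, t < 1 / 4 := Iio_mem_nhds (by norm_num)
      filter_upwards [this.filter_mono nhdsWithin_le_nhds] with t h
      linarith
    have ev3 : ∀ᶠ t : ℝ in 𝓝[>] 0, ∀ j, 4 * t ≤ (s j).re - 1 / 2 := by
      refine Filter.eventually_all.mpr fun j => ?_
      have : ∀ᶠ t : ℝ in 𝓝 0, t < ((s j).re - 1 / 2) / 4 := Iio_mem_nhds (by linarith [hs j])
      filter_upwards [this.filter_mono nhdsWithin_le_nhds] with t h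
      linarith
    obtain ⟨η, ⟨⟨h1, h2⟩, h3⟩, h4⟩ := (((ev1.and ev2).and ev3).and self_mem_nhdsWithin).exists
    exact ⟨η, h4, h2, h3, h1⟩
  have hin : ∀ (x u : ℝ), -η ≤ x → 1 - 2 * η ≤ u →
      (Fin.cons u (fun j => (s j).re + x) : Fin (k + 1) → ℝ) ∈ W := by
    intro x u hx hu
    refine mem_of_ge hWo hWc hWorth hη3 fun i => ?_
    refine Fin.cases ?_ (fun j => ?_) i
    · simpa using hu
    · simp only [Fin.cons_succ]
      linarith
  refine ⟨η, fun ζ => hc k G (fun j => s j + ζ) 1, hη, ?_, fun ζ hζ => ?_⟩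
  · have hemre : ∀ ζ : ℂ, (fun i => (em (fun j => s j + ζ) 1 i).re) =
        (Fin.cons 1 (fun j => (s j).re + ζ.re) : Fin (k + 1) → ℝ) := by
      intro w
      funext i
      refine Fin.cases ?_ (fun j => ?_) i
      · simp [em_zero]
      · simp [em_succ]
    unfold hc
    refine DifferentiableOn.div ?_ ((P1_diff k).comp (em_diff2 s)).differentiableOn fun ζ hζ => ?_
    · refine hG.1.comp (em_diff2 s).differentiableOn fun ζ hζ => ?_
      show (fun i => (em (fun j => s j + ζ) 1 i).re) ∈ W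
      rw [hemre ζ]
      have : -η < ζ.re := hζ
      exact hin _ _ this.le (by linarith)
    · have h5 : -η < ζ.re := hζ
      exact P1_ne (a := 2 * η) (c := η) (by linarith) hη (by rw [em_zero]; simp; linarith)
        (fun j => by rw [em_succ, Complex.add_re]; linarith [hη2 j])
  · obtain ⟨C, hC⟩ := asy_point hS hL hVW hG hGV hη hη1 (fun j => s j + ζ)
      (fun j => by rw [Complex.add_re]; linarith [hη2 j])
      (fun u hu => by
        simp only [Complex.add_re]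
        exact hin _ _ hζ.le hu)
    exact ⟨η, C, hη, hC⟩

end

end Pool.Agent.Run7.h473.MD
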