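import Pool.Agent.Run7.h473.MD.Iface3

set_option autoImplicit false

/-!
Project MD (helper473), piece CID: the constant is `T_M(s)`.
-/

namespace Pool.Agent.Run7.h473.MD

open Complex Filter Topology MeasureTheory Set
open Pool.Agent.Q48.MDS Pool.Agent.N879.QM

noncomputable section

theorem isOpen_half (η : ℝ) : IsOpen {ζ : ℂ | -η < ζ.re} := isOpen_lt continuous_const Complex.continuous_re

theorem preconn_half (η : ℝ) : IsPreconnected {ζ : ℂ | -η < ζ.re} :=
  (convex_halfSpace_re_gt (-η)).isPreconnected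

theorem t_CID (hA : S_ASYG) (hL : S_CLIM) (hT : S_THOL) : S_CID := by
  intro k M s hM hs hsum
  obtain ⟨η, h, hη, hh, hasy⟩ := hA k M s hM hs hsum
  obtain ⟨_, η', hη', hT'⟩ := hT k M s hM hs
  set η₀ := min η η' with hη₀
  have h0 : 0 < η₀ := lt_min hη hη'
  have sub1 : {ζ : ℂ | -η₀ < ζ.re} ⊆ {ζ | -η < ζ.re} := fun ζ hζ => by
    have : η₀ ≤ η := min_le_left _ _
    have h3 : -η₀ < ζ.re := hζ
    show -η < ζ.re
    linarith
  have sub2 : {ζ : ℂ | -η₀ < ζ.re} ⊆ {ζ | -η' < ζ.re} := fun ζ hζ => by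
    have : η₀ ≤ η' := min_le_right _ _
    have h3 : -η₀ < ζ.re := hζ
    show -η' < ζ.re
    linarith
  have a1 : AnalyticOnNhd ℂ h {ζ | -η₀ < ζ.re} := (hh.mono sub1).analyticOnNhd (isOpen_half η₀)
  have a2 : AnalyticOnNhd ℂ (fun ζ => TM k M (fun j => s j + ζ)) {ζ | -η₀ < ζ.re} :=
    (hT'.mono sub2).analyticOnNhd (isOpen_half η₀)
  have key : ∀ ζ : ℂ, 1 < ζ.re → h ζ = TM k M (fun j => s j + ζ) := by
    intro ζ hζ
    have l1 := hL k M (fun j => s j + ζ) hM fun j => by
      simp only [Complex.add_re]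
      linarith [hs j]
    obtain ⟨δ, C, hδ, hC⟩ := hasy ζ (by linarith)
    have l2 : Tendsto (fun X : ℝ => asum k M (fun j => s j + ζ) X / (X : ℂ)) atTop (𝓝 (h ζ)) := by
      rw [tendsto_iff_norm_sub_tendsto_zero]
      have l3 : Tendsto (fun X : ℝ => |C| * X ^ (-δ)) atTop (𝓝 0) := by
        have := (tendsto_rpow_neg_atTop hδ).const_mul |C|
        simpa using this
      refine squeeze_zero' (Eventually.of_forall fun X => norm_nonneg _) ?_ l3
      filter_upwards [eventually_ge_atTop 1] with X hX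
      have X0 : 0 < X := by linarith
      have e : asum k M (fun j => s j + ζ) X / (X : ℂ) - h ζ = (asum k M (fun j => s j + ζ) X - h ζ * X) / X := by
        have : (X : ℂ) ≠ 0 := by exact_mod_cast X0.ne'
        field_simp
      rw [e, norm_div, Complex.norm_real, Real.norm_of_nonneg X0.le, div_le_iff₀ X0, mul_assoc]
      refine (hC X hX).trans ?_
      have e2 : X ^ (-δ) * X = X ^ (1 - δ) := by
        nth_rewrite 2 [← Real.rpow_one X]
        rw [← Real.rpow_add X0]
        congr 1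
        ring
      rw [e2]
      exact mul_le_mul_of_nonneg_right (le_abs_self C) (by positivity)
    exact tendsto_nhds_unique l2 l1
  have m2 : (2 : ℂ) ∈ {ζ : ℂ | -η₀ < ζ.re} := by
    show -η₀ < (2 : ℂ).re
    norm_num
    linarith
  have ev : h =ᶠ[𝓝 (2 : ℂ)] fun ζ => TM k M (fun j => s j + ζ) := by
    have hU : {ζ : ℂ | 1 < ζ.re} ∈ 𝓝 (2 : ℂ) :=
      (isOpen_lt continuous_const Complex.continuous_re).mem_nhds (by
        show (1 : ℝ) < (2 : ℂ).re
        norm_num)
    filter_upwards [hU] with ζ hζ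
    exact key ζ hζ
  have e := a1.eqOn_of_preconnected_of_eventuallyEq a2 (preconn_half η₀) m2 ev
  have m0 : (0 : ℂ) ∈ {ζ : ℂ | -η₀ < ζ.re} := by
    show -η₀ < (0 : ℂ).re
    simp only [Complex.zero_re]
    linarith
  have e0 := e m0
  simp only [add_zero] at e0
  obtain ⟨δ, C, hδ, hC⟩ := hasy 0 (by simp only [Complex.zero_re]; linarith)
  refine ⟨δ, C, hδ, fun X hX => ?_⟩
  have := hC X hX
  simp only [add_zero] at this
  rw [← e0]
  exact this

end

end Pool.Agent.Run7.h473.MD
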