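import Pool.Agent.Run7.h473.MD.Fin
import Pool.Agent.Run7.h473.MD.CID
import Pool.Agent.Run7.h473.MD.ASYG
import Pool.Agent.Run7.h327.MD.SHI
import Pool.Agent.Run7.h379.MD.THOL
import Pool.Agent.Run7.h617.MD.CLIM

set_option autoImplicit false

/-!
Project MD (helper473): the moments in the terms of the page. Authors of the pieces: helper327 (SHI), helper617 (CLIM),
helper379 (THOL), helper473 (ASYG with the setup from REF of helper763, CID).
-/

namespace Pool.Agent.Run7.h473.MD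

open Complex Filter Topology MeasureTheory Set
open Pool.Agent.Q48.MDS Pool.Agent.N879.QM

noncomputable section

open Classical in
/-- the terms of the smoothed moment, in the terms of the page; `L d` is the continued `L`-function of `χ_d` -/
def mterm (L : ℕ → ℂ → ℂ) (k M : ℕ) (s : Fin k → ℂ) (X : ℝ) (d : ℕ) : ℂ :=
  if 2 ≤ d ∧ FundDisc d then (kron d M : ℂ) * (∏ j : Fin k, L d (s j)) * ((Real.exp (-(d / X)) : ℝ) : ℂ) else 0

theorem mterm_eq (k M : ℕ) (hM : 1 ≤ M) (s : Fin k → ℂ) (X : ℝ) (d : ℕ) :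
    mterm (LL 1) k M s X d =
      (by classical exact if Is 1 d then vl 1 d M * (∏ j : Fin k, LL 1 d (s j)) * ((Real.exp (-(d / X)) : ℝ) : ℂ) else 0) := by
  classical
  unfold mterm
  by_cases h : Is 1 d
  · have h2 : 2 ≤ d := h.1
    have hF : FundDisc d := (Pool.Agent.Run7.h205.MD.t_BR1 d h2).2 h
    have hk := Pool.Agent.Run7.h205.MD.t_BR2 d M h hM
    rw [if_pos ⟨h2, hF⟩]
    simp only [if_pos h]
    rw [hk]
  · have : ¬ (2 ≤ d ∧ FundDisc d) := fun h' => h ((Pool.Agent.Run7.h205.MD.t_BR1 d h'.1).1 h'.2)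
    rw [if_neg this]
    simp only [if_neg h]

theorem summable_mterm (k M : ℕ) (s : Fin k → ℂ) (hs : ∀ j, 1 / 2 < (s j).re) (hM : 1 ≤ M) {X : ℝ} (hX : 1 ≤ X) :
    Summable (mterm (LL 1) k M s X) := by
  classical
  have h0 : Summable fun d : ℕ => (∏ j : Fin k, (‖s j‖ / (s j).re)) * ((d : ℝ) ^ k * Real.exp (-(1 / X) * d)) :=
    (Real.summable_pow_mul_exp_neg_nat_mul k (by positivity : 0 < 1 / X)).mul_left _
  refine Summable.of_norm_bounded h0 fun d => ?_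
  have hre : ∀ j, 0 < (s j).re := fun j => by linarith [hs j]
  rw [mterm_eq k M hM]
  split_ifs with h
  · rw [norm_mul, norm_mul]
    have h1 : ‖vl 1 d M‖ ≤ 1 := DirichletCharacter.norm_le_one _ _
    have h2 : ‖∏ j : Fin k, LL 1 d (s j)‖ ≤ ∏ j : Fin k, ((d : ℝ) * (‖s j‖ / (s j).re)) := by
      rw [norm_prod]
      refine Finset.prod_le_prod (fun _ _ => norm_nonneg _) fun j _ => ?_
      have := (Pool.Agent.Run7.h894.MD.t_LBD d h).2 (s j) (hre j)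
      rwa [mul_div_assoc] at this
    rw [Finset.prod_mul_distrib, Finset.prod_const, Finset.card_univ, Fintype.card_fin] at h2
    have h3 : ‖((Real.exp (-(d / X)) : ℝ) : ℂ)‖ = Real.exp (-(1 / X) * d) := by
      rw [Complex.norm_real, Real.norm_of_nonneg (Real.exp_pos _).le]
      congr 1
      ring
    rw [h3]
    have h4 : 0 ≤ (d : ℝ) ^ k * ∏ j : Fin k, (‖s j‖ / (s j).re) :=
      mul_nonneg (by positivity) (Finset.prod_nonneg fun j _ => div_nonneg (norm_nonneg _) (hre j).le)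
    calc ‖vl 1 d M‖ * ‖∏ j : Fin k, LL 1 d (s j)‖ * Real.exp (-(1 / X) * d)
        ≤ 1 * ((d : ℝ) ^ k * ∏ j : Fin k, (‖s j‖ / (s j).re)) * Real.exp (-(1 / X) * d) := by
          refine mul_le_mul_of_nonneg_right ?_ (Real.exp_pos _).le
          exact mul_le_mul h1 h2 (norm_nonneg _) (by norm_num)
      _ = _ := by ring
  · rw [norm_zero]
    have := Finset.prod_nonneg fun (j : Fin k) (_ : j ∈ Finset.univ) => div_nonneg (norm_nonneg (s j)) (hre j).le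
    positivity

theorem fin_cid (hC : S_CID) (hT : S_THOL) : ∃ L : ℕ → ℂ → ℂ,
    (∀ d : ℕ, 2 ≤ d → FundDisc d → Differentiable ℂ (L d) ∧ ∀ s : ℂ, 1 < s.re → L d s = Lchi d s) ∧
    ∀ (k M : ℕ) (s : Fin k → ℂ), 1 ≤ M → (∀ j, 1 / 2 < (s j).re) → ∑ j : Fin k, max (1 - (s j).re) 0 < 2 →
      Summable (fun n => ‖tmt k M s n‖) ∧
      (∀ X : ℝ, 1 ≤ X → Summable (mterm L k M s X)) ∧
      ∃ δ C : ℝ, 0 < δ ∧ ∀ X : ℝ, 1 ≤ X → ‖∑' d : ℕ, mterm L k M s X d - TM k M s * X‖ ≤ C * X ^ (1 - δ) := by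
  refine ⟨LL 1, fun d h2 hF => ?_, fun k M s hM hs hsum => ⟨(hT k M s hM hs).1,
    fun X hX => summable_mterm k M s hs hM hX, ?_⟩⟩
  · have hI := (Pool.Agent.Run7.h205.MD.t_BR1 d h2).1 hF
    exact ⟨(Pool.Agent.Run7.h894.MD.t_LBD d hI).1, fun s hs =>
      (Pool.Agent.Run7.h501.MD.Lchi_eq Pool.Agent.Run7.h205.MD.t_BR2 hI hs).symm⟩
  · obtain ⟨δ, C, hδ, h⟩ := hC k M s hM hs hsum
    refine ⟨δ, C, hδ, fun X hX => ?_⟩
    have e : ∑' d : ℕ, mterm (LL 1) k M s X d = asum k M s X := by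
      unfold asum
      exact tsum_congr fun d => mterm_eq k M hM s X d
    rw [e]
    exact h X hX

theorem all_CID : S_CID :=
  t_CID (t_ASYG Pool.Agent.Run7.h327.MD.shi all_DOM all_EQ
    (Pool.Agent.Run7.h24.MD.t_BIG Pool.Agent.Run7.h67.MD.t_SER Pool.Agent.Run7.h894.MD.t_LBD)
    Pool.Agent.Run7.h894.MD.t_LBD)
    (Run7.h617.MD.t_CLIM (t_AVG t_UNI)) Pool.Agent.Run7.h379.MD.t_THOL

theorem fin_all : ∃ L : ℕ → ℂ → ℂ,
    (∀ d : ℕ, 2 ≤ d → FundDisc d → Differentiable ℂ (L d) ∧ ∀ s : ℂ, 1 < s.re → L d s = Lchi d s) ∧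
    ∀ (k M : ℕ) (s : Fin k → ℂ), 1 ≤ M → (∀ j, 1 / 2 < (s j).re) → ∑ j : Fin k, max (1 - (s j).re) 0 < 2 →
      Summable (fun n => ‖tmt k M s n‖) ∧
      (∀ X : ℝ, 1 ≤ X → Summable (mterm L k M s X)) ∧
      ∃ δ C : ℝ, 0 < δ ∧ ∀ X : ℝ, 1 ≤ X → ‖∑' d : ℕ, mterm L k M s X d - TM k M s * X‖ ≤ C * X ^ (1 - δ) :=
  fin_cid all_CID Pool.Agent.Run7.h379.MD.t_THOL

end

end Pool.Agent.Run7.h473.MD
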