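import Pool.Agent.Q48.MDS.Glue
import Pool.Agent.N879.QM.Stm
import Pool.Agent.N879.QM.Stm2

set_option autoImplicit false

/-!
Project MD (helper473), hard page `MP_fed7ff_nt`: continuation of the multiple Dirichlet series of quadratic
`L`-functions. `D_k(M)` denotes the set of the real points `p = (w; s_1, ..., s_k)` with `ContinuesTo k M p`
(library `Pool.Agent.Q48.MDS`: `D_k(M)` is convex and closed upwards, Bochner's theorem `bochner`, gluing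
`tempered_glue`). Goal:

* `REF`: `D_k(M)` is stable under the functional equations `s_j -> 1 - s_j`, `w -> w + s_j - 1/2` (`0 < s_j < 1`);
* `CEN`: the centre lies in `D_k(M)` (this is Q1) if and only if `D_k(M)` contains a point strictly to the right of
  the critical line, `1/2 < s_j < 1`, with `2 w + ∑ s_j ≤ 2 + k/2`;
* `DOM`: `D_k(M)` contains all points with `w ≥ 1`, `s_j > 1/2`, `∑ max(1 - s_j, 0) < 2` (so for `k ≤ 4` all the points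
  `(1; 1/2 + κ, ..., 1/2 + κ)`), `DOM2`: and all points with `w > 1`, `s_j ≥ 1/2`, `2 w + ∑ min(s_j, 1) > k`.

Each `S_XXX` is a closed statement; a piece is a theorem `t_XXX : (hypotheses) → S_XXX` in
`Pool/Agent/Run7/<you>/MD/XXX.lean`. The hypotheses named in the docstring may be used (as Props), nothing else.
-/

namespace Pool.Agent.Run7.h473.MD

open Complex Filter Topology MeasureTheory Set
open Pool.Agent.Q48.MDS Pool.Agent.N879.QM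

noncomputable section

/-! ### Definitions -/

open Classical in
/-- the term of `d`: `χ_d(M) d^{-w} ∏ L(s_j, χ_d)` for the fundamental discriminants `d ≥ 2`, `z = (w, s_1, ..., s_k)` -/
def cd (k M d : ℕ) (z : Fin (k + 1) → ℂ) : ℂ :=
  if Is 1 d then vl 1 d M * (d : ℂ) ^ (-(z 0)) * ∏ j : Fin k, LL 1 d (z j.succ) else 0

/-- `A_M - ζ(s_1) ⋯ ζ(s_k)` -/
def Hs (k M : ℕ) (z : Fin (k + 1) → ℂ) : ℂ := ∑' d : ℕ, cd k M d z

/-- the product over all `J` of `σ_J(w) - 1` -/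
def PP (k : ℕ) (z : Fin (k + 1) → ℂ) : ℂ := ∏ J : Finset (Fin k), (sigma J z - 1)

/-- the factor of the functional equation -/
def gam (s : ℂ) : ℂ := (Real.pi : ℂ) ^ (s - 1 / 2) * Complex.Gamma ((1 - s) / 2) / Complex.Gamma (s / 2)

/-- the reflection `s_j -> 1 - s_j`, `w -> w + s_j - 1/2` on real points -/
def rf {k : ℕ} (j : Fin k) (p : Fin (k + 1) → ℝ) : Fin (k + 1) → ℝ :=
  fun i => if i = 0 then p 0 + p j.succ - 1 / 2 else if i = j.succ then 1 - p j.succ else p i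

/-- the same on complex points -/
def rfc {k : ℕ} (j : Fin k) (z : Fin (k + 1) → ℂ) : Fin (k + 1) → ℂ :=
  fun i => if i = 0 then z 0 + z j.succ - 1 / 2 else if i = j.succ then 1 - z j.succ else z i

/-- the points with `w > 1`, `s_j > 1/2` for `j` in `I` and `s_j > 1` for the other `j` -/
def reg (k : ℕ) (I : Finset (Fin k)) : Set (Fin (k + 1) → ℝ) :=
  {p | 1 < p 0 ∧ ∀ j : Fin k, (if j ∈ I then (1 / 2 : ℝ) else 1) < p j.succ}

/-- the smoothed sum `∑ d(n) χ(n) n^{-z} e^{-n/Y}` -/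
def SS (q : ℕ) (z : ℂ) (Y : ℝ) : ℂ :=
  ∑' n : ℕ, (n.divisors.card : ℂ) * vl 1 q n * (n : ℂ) ^ (-z) * ((Real.exp (-(n / Y)) : ℝ) : ℂ)

/-! ### The bridge -/

/-- SER (no hypotheses). Series of tempered functions. Holomorphy: `differentiableOn_integral` of the library `Holo`
with the counting measure, or locally uniform limits; the bound: sum the bounds. -/
def S_SER : Prop := ∀ (n : ℕ) (Ω : Set (Fin n → ℝ)) (f : ℕ → (Fin n → ℂ) → ℂ), IsOpen Ω →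
  (∀ m, DifferentiableOn ℂ (f m) (tube Ω)) →
  (∀ K ⊆ Ω, IsCompact K → ∃ (C : ℝ) (N : ℕ) (u : ℕ → ℝ), Summable u ∧ ∀ (m : ℕ) (z : Fin n → ℂ),
    (fun i => (z i).re) ∈ K → ‖f m z‖ ≤ C * (1 + ‖fun i => (z i).im‖) ^ N * u m) →
  Tempered Ω (fun z => ∑' m, f m z)

/-- BR1 (no hypotheses; helpful: `Pool.Agent.N879.QM.Avg.fam_surj`, `Avg.rp_of`, `F1 1 i` in `QM/Avg.lean`: the four
families `8 m`, `4 m`, `m = 1 mod 8`, `m = 5 mod 8`). The positive fundamental discriminants `d ≥ 2` are the conductors of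
the even real primitive characters. -/
def S_BR1 : Prop := ∀ d : ℕ, 2 ≤ d → (FundDisc d ↔ Is 1 d)

/-- BR2 (no hypotheses; `Avg.rp_of` gives the values of the character as the Kronecker symbol `cf`, `Avg.vl_eq t_UNI`
identifies it with `vl`). -/
def S_BR2 : Prop := ∀ d n : ℕ, Is 1 d → 1 ≤ n → ((kron d n : ℤ) : ℂ) = vl 1 d n

/-- EQ (from `S_BR1`, `S_BR2`; helpful: `summable_coef` in `Q48/MDS/Local.lean`, `kron_one_left`,
`DirichletCharacter.LFunction_eq_LSeries`). Where all real parts are greater than one, `F = Hs * PP`: the term `d = 1`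
of `A` is `ζ(s_1) ⋯ ζ(s_k)`, the terms `d ≥ 2` are the `cd k M d z`. -/
def S_EQ : Prop := ∀ k M : ℕ, 1 ≤ M → EqOn (F k M) (fun z => Hs k M z * PP k z) (tube (orth (k + 1)))

/-- LBD (no hypotheses). `ch 1 d` is not principal, so `L` is entire. With `S(x) = ∑_{n ≤ x} χ(n)`, `|S(x)| ≤ d`, one
has `L(s) = s ∫_1^∞ S(x) x^{-s-1} dx` for `Re s > 0`, hence the bound (or as limit of partial sums, see `QM`'s `S_AFS` and
`Run7.h473.QW.tail`). -/
def S_LBD : Prop := ∀ d : ℕ, Is 1 d → Differentiable ℂ (LL 1 d) ∧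
  ∀ s : ℂ, 0 < s.re → ‖LL 1 d s‖ ≤ d * ‖s‖ / s.re

/-- GAM (no hypotheses). `gam` is holomorphic in the strip (`Γ` has no zeros, and no poles for positive real part) and
polynomially bounded in closed substrips: `|Γ((1-s)/2) / Γ(s/2)|`; e.g. with reflection,
`1/Γ(s/2) = Γ(1 - s/2) sin(π s/2)/π` and `|Γ(x + iy)| e^{π|y|/2}` polynomially bounded for `x` in a compact subset of
`(0, ∞)` (Stirling, or: `|Γ(1/2 + iy)|² = π/cosh(π y)`, `|Γ(1+iy)|² = π y / sinh(π y)`, log-convexity / three lines in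
between; only a polynomial bound is needed; several libraries of the pool have it, e.g. `H370R2/DirGood.lean`,
`N846/DT` part GAM, `gam_all`). -/
def S_GAM : Prop := DifferentiableOn ℂ gam {s | 0 < s.re ∧ s.re < 1} ∧
  ∀ a b : ℝ, 0 < a → b < 1 → ∃ (C : ℝ) (N : ℕ), ∀ s : ℂ, a ≤ s.re → s.re ≤ b → ‖gam s‖ ≤ C * (1 + |s.im|) ^ N

/-- FEQ (no hypotheses). The functional equation with root number one. Mathlib:
`DirichletCharacter.IsPrimitive.completedLFunction_one_sub`; root number one for the real primitive characters: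
`Pool/Agent/W215/QP/Fe.lean` (proved inside the theorem there for the characters of the families `F1`; copy the
argument), or: it is `±1` and equal to the sign of the Gauss sum. -/
def S_FEQ : Prop := ∀ d : ℕ, Is 1 d → ∀ s : ℂ, 0 < s.re → s.re < 1 →
  LL 1 d s = (d : ℂ) ^ (1 / 2 - s) * gam s * LL 1 d (1 - s)

/-! ### The fourth moment right of the critical line (Heath-Brown) -/

/-- the moment of order `r` -/
def S_MOM (r : ℕ) : Prop := ∀ κ ε : ℝ, 0 < κ → 0 < ε → ∃ (C : ℝ) (N : ℕ), ∀ (X : ℝ) (z : ℂ), 1 ≤ X →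
  1 / 2 + κ ≤ z.re → ∑ q ∈ Q 1 X, ‖LL 1 q z‖ ^ r ≤ C * (1 + |z.im|) ^ N * X ^ (1 + ε)

/-- M4A (from `S_LBD`). Contour shift. For `1/2 + κ ≤ Re z ≤ 9/8` put `c = Re z - 1/2 + κ`, so `2 κ ≤ c ≤ 3/4`. Mellin:
`e^{-x} = (2πi)⁻¹ ∫_{(2)} Γ(u) x^{-u} du`, so `SS q z Y = (2πi)⁻¹ ∫_{(2)} L(z+u)² Γ(u) Y^u du`. The function
`(L(z+u)² - L(z)²) Γ(u) Y^u` is holomorphic for `-1 < Re u`, rapidly decreasing in vertical strips (`S_LBD` and the decay
of `Γ`), so the line can be moved to `Re u = -c`; moreover `(2πi)⁻¹ ∫_{(2)} Γ(u) Y^u du = e^{-1/Y}` and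
`(2πi)⁻¹ ∫_{(-c)} Γ(u) Y^u du = e^{-1/Y} - 1`. So `L(z)² = SS q z Y - (2πi)⁻¹ ∫_{(-c)} L(z+u)² Γ(u) Y^u du`, and
`|Γ(-c+iv)| ≤ C e^{-|v|}` uniformly for `2 κ ≤ c ≤ 3/4`, `Y^{-c} ≤ Y^{-2κ}`, `Re (z+u) = 1/2 - κ`. -/
def S_M4A : Prop := ∀ κ : ℝ, 0 < κ → κ ≤ 1 / 8 → ∃ C : ℝ, 0 < C ∧ ∀ (q : ℕ) (z : ℂ) (Y : ℝ), Is 1 q →
  1 / 2 + κ ≤ z.re → z.re ≤ 9 / 8 → 1 ≤ Y →
  ‖LL 1 q z‖ ^ 2 ≤ ‖SS q z Y‖ + C * Y ^ (-(2 * κ)) *
    ∫ v : ℝ, ‖LL 1 q (((1 / 2 - κ : ℝ) : ℂ) + I * ((z.im + v : ℝ) : ℂ))‖ ^ 2 * Real.exp (-|v|)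

/-- M4C (from `S_HBG`, proved: `Pool.Agent.N879.QM.t_HBG`). Heath-Brown's large sieve for the smoothed sums: cut at
`K = ⌈Y^{1+ε'}⌉ + 1` (the rest is `≤ ∑_{n > K} n e^{-n/Y}`, bounded by a constant depending on `ε'`), then `S_HBG` with
`y_n = d(n) n^{-z} e^{-n/Y}`, and `∑ wq n d(n)² n^{-1-2κ} < ∞` (`wq n ≤ C n^ε` on average: `Run7.h473.QW.sum_wq_div`,
`d(n) ≤ C n^ε`). -/
def S_M4C : Prop := ∀ κ ε : ℝ, 0 < κ → 0 < ε → ∃ C : ℝ, 0 < C ∧ ∀ (X Y : ℝ) (z : ℂ), 1 ≤ X → 1 ≤ Y →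
  1 / 2 + κ ≤ z.re → ∑ q ∈ Q 1 X, ‖SS q z Y‖ ^ 2 ≤ C * (X * Y) ^ ε * (X + Y)

/-- M4D is `S_MOM 4` (from `S_LBD`, `S_GAM`, `S_FEQ`, `S_M4A`, `S_M4C`). We may assume `κ ≤ 1/8`. For `Re z ≥ 9/8` trivial
(`|L| ≤ ζ(9/8)`). Let `M(t) = ∑_q |L(1/2+κ+it)|⁴`. By `S_FEQ`, `S_GAM`:
`|L(1/2-κ+iv')| ≤ C₁ q^κ (1+|v'|)^B |L(1/2+κ-iv')|`. Square `S_M4A`, Cauchy-Schwarz in `v` (`∫ e^{-|v|} = 2`), sum over `q`:
for `1/2+κ ≤ Re z ≤ 9/8`, `t = Im z`: `∑_q |L(z)|⁴ ≤ 2 ∑_q |SS|² + C₂ Y^{-4κ} X^{4κ} ∫ (1+|t+v|)^{4B} M(-(t+v)) e^{-|v|} dv`.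
Take `Y = (X (1+|t|)^{B'})^{1+ε}` with `B' ≥ B/κ`. With `M* = sup_t M(t) (1+|t|)^{-A}` (finite by `S_LBD`, if `A ≥ 4`),
`A` large in terms of `B'`: the second term is `≤ C₃ X^{-4κε} (1+|t|)^A M*`, the first `≤ C₄ X^{1+3ε} (1+|t|)^A` by `S_M4C`.
At `Re z = 1/2+κ` this gives `M* ≤ C₄ X^{1+3ε} + C₃ X^{-4κε} M*`, so `M* ≤ 2 C₄ X^{1+3ε}` for large `X` (small `X`: trivial
by `S_LBD`); then the same inequality for all the other `z`. -/
def S_M4D : Prop := S_MOM 4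

/-! ### Regions of absolute convergence -/

/-- ABS r (from `S_SER`, `S_LBD`, `S_MOM r`, `2 ≤ r`). Blocks `f_m(z) = ∑_{2^m ≤ d < 2^{m+1}} cd k M d z`. On a compact
subset: `w ≥ 1 + 2ε`, `s_j ≥ 1/2 + κ` for `j` in `I`, `s_j ≥ 1 + κ` for the others, where `|L| ≤ ζ(1+κ)`. Since
`∏_{j ∈ I} |L_j| ≤ 1 + ∑_{j ∈ I} |L_j|^r` (`#I ≤ r`), `S_MOM r` gives
`∑_{2^m ≤ d < 2^{m+1}} |cd k M d z| ≤ C (1 + ‖im z‖)^N 2^{-ε m}`. So `∑_d |cd| < ∞`, `Hs = ∑' f_m`, and `S_SER` applies. -/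
def S_ABS (r : ℕ) : Prop := ∀ (k M : ℕ) (I : Finset (Fin k)), I.card ≤ r → Tempered (reg k I) (Hs k M)

/-- BIG (from `S_SER`, `S_LBD`). Large `w`: `|cd k M d z| ≤ d^{-Re w} ∏ (d |s_j| / Re s_j)`. -/
def S_BIG : Prop := ∀ k M : ℕ, Tempered {p : Fin (k + 1) → ℝ | (k : ℝ) + 1 < p 0 ∧ ∀ j : Fin k, 0 < p j.succ} (Hs k M)

/-- GLU (from `S_EQ`, `S_ABS 2` with `I = ∅`, where `reg k ∅ = orth (k+1)`; `PP` is tempered everywhere, so `F` is tempered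
on the orthant; then `tempered_glue` of `Q48/MDS/Glue.lean` for `Ω` and `orth (k+1)`; the union is open and connected). -/
def S_GLU : Prop := ∀ (k M : ℕ) (Ω : Set (Fin (k + 1) → ℝ)) (G : (Fin (k + 1) → ℂ) → ℂ), 1 ≤ M → IsOpen Ω →
  Convex ℝ Ω → (Ω ∩ orth (k + 1)).Nonempty → Tempered Ω G → EqOn G (F k M) (tube (Ω ∩ orth (k + 1))) →
  ∀ p ∈ Ω, ContinuesTo k M p

/-- Q0 (from `S_AVG` (proved, `t_AVG t_UNI`), `S_SER`, `S_EQ`, `S_GLU`). On `Ω = {w > 3/5, s_j > 7/4}`: for `Re w > 1`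
`Hs(z) = ∑_{n ∈ (ℕ≥1)^k} ∏ n_j^{-s_j} Z_{M ∏ n}(w)`, `Z_m(w) = ∑_{d, Is 1 d} vl 1 d m d^{-w}`. Let
`T_m(x) = ∑_{q ∈ Q 1 x} vl 1 q m`, `c_m = c0 * af m` if `m` is a square, `0` otherwise. By `S_AVG`
`|T_m(x) - c_m x| ≤ C √x √m`, so `Z_m(w) = w ∫_1^∞ T_m(x) x^{-w-1} dx = c_m w/(w-1) + w ∫_1^∞ (T_m(x) - c_m x) x^{-w-1} dx`, and
`(w-1) Z_m(w)` continues to `Re w > 1/2` with a bound `C (1+|w|)² √m / (Re w - 1/2)` (series instead of integrals are as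
good). So `(w-1) Hs(z) = ∑_n ∏ n_j^{-s_j} (w-1) Z_{M ∏ n}(w)` converges on the tube over `Ω` (`7/4 - 1/2 > 1`) and is
tempered; multiply by the factors with `J ≠ ∅` of `PP`. -/
def S_Q0 : Prop := ∀ k M : ℕ, 1 ≤ M → ContinuesTo k M (Fin.cons (3 / 4) fun _ => 2)

/-! ### Geometry -/

/-- HYP (no hypotheses). Points of the cube with coordinate sum at most `r` are convex combinations of `0/1`-vectors with
at most `r` ones (systematic sampling: `U_j = u_1 + ... + u_j`, `I_θ = {j : some integer + θ lies in (U_{j-1}, U_j]}`,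
`θ` in `(0, 1]`; `#I_θ ≤ r` and `∫ 1_{I_θ} dθ = u`; or by induction on the number of coordinates in `(0,1)`: move two of
them in opposite directions). -/
def S_HYP : Prop := ∀ (r k : ℕ) (u : Fin k → ℝ), (∀ j, 0 ≤ u j ∧ u j ≤ 1) → ∑ j, u j ≤ r →
  u ∈ convexHull ℝ {v : Fin k → ℝ | ∃ I : Finset (Fin k), I.card ≤ r ∧ v = fun j => if j ∈ I then 1 else 0}

/-- REF (from `S_EQ`, `S_BIG`, `S_FEQ`, `S_GAM`). Let `Ω`, `G` be as in `ContinuesTo k M p`; by `bochner` we may take `Ω`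
convex. Let `V = {w > k+1, s_i > 0}`. On `V` the function `Hs * PP` is tempered (`S_BIG`), it agrees with `F` on the tube
over `V ∩ orth` (`S_EQ`), so with `G` on the tube over the convex set `Ω ∩ V` (identity theorem, as in
`Q48/MDS/Glue.lean`); glue and apply `bochner` again: now `Ω` is convex, contains `V`, `orth` and `p`. Let
`Ω' = {q : rf j q ∈ Ω, 0 < q_j < 1}` and `G'(z) = gam (z_j) * G (rfc j z)`, tempered on `Ω'` by `S_GAM`. For `w > k+3`,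
`0 < s_j < 1`, other `s_i > 0`: `rfc j z` lies in the tube over `V`, and termwise `S_FEQ` gives
`gam(z_j) Hs(rfc j z) = Hs z`; `PP (rfc j z) = PP z` (`σ_J` for `J ∌ j` and `J ∪ {j}` are exchanged). So `G' = G` on a tube
over an open subset of the convex set `Ω ∩ Ω'`, hence on the tube over `Ω ∩ Ω'`; glue. `rf j p` lies in `Ω'`. -/
def S_REF : Prop := ∀ (k M : ℕ) (j : Fin k) (p : Fin (k + 1) → ℝ), 1 ≤ M → ContinuesTo k M p →
  0 < p j.succ → p j.succ < 1 → ContinuesTo k M (rf j p)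

/-- CEN (from `S_REF`). `→`: the domain is open, so it contains `(1 - kκ/2; 1/2+κ, ..., 1/2+κ)` for small `κ > 0`. `←`:
replace `p` by the midpoint of `p` and `rf j p` (`convex_continuesTo`) for `j = 1, ..., k` one after the other: the result is
`(w + ∑ (s_j - 1/2)/2; 1/2, ..., 1/2)`, and `ContinuesTo.up`. -/
def S_CEN : Prop := ∀ k M : ℕ, 1 ≤ M → (ContinuesTo k M (center k) ↔
  ∃ p : Fin (k + 1) → ℝ, (∀ j : Fin k, 1 / 2 < p j.succ ∧ p j.succ < 1) ∧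
    2 * p 0 + ∑ j : Fin k, p j.succ ≤ 2 + (k : ℝ) / 2 ∧ ContinuesTo k M p)

/-- DOM (from `S_ABS 4`, `S_EQ`, `S_GLU`, `S_Q0`, `S_HYP`). For `#I ≤ 4` the points of `reg k I` are in `D_k(M)` (`S_GLU` with
`G = Hs * PP`). Let `u_j = 2 max(1 - p_j, 0) + 2η ≤ 1`, `∑ u_j ≤ 4`; by `S_HYP` and convexity
`(1+ε; 1 + ε - u_j/2)` is in `D_k(M)` for all `ε > 0`. A convex combination with a small multiple of `(3/4; 2, ..., 2)` has
all coordinates at most those of `p`; `ContinuesTo.up`. -/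
def S_DOM : Prop := ∀ (k M : ℕ) (p : Fin (k + 1) → ℝ), 1 ≤ M → 1 ≤ p 0 → (∀ j : Fin k, 1 / 2 < p j.succ) →
  ∑ j : Fin k, max (1 - p j.succ) 0 < 2 → ContinuesTo k M p

/-- DOM2 (from `S_DOM`, `S_REF`). If `q` is in `D_k(M)`, `1/2 < q_j < 1` and `1/2 ≤ s ≤ q_j`, then a convex combination of
`q` and `rf j q` has `j`-th coordinate `s` and first coordinate `q_0 + (q_j - s)/2`. Given `p`, choose `q_j ≥ p_j` (equal if
`p_j ≥ 1`), `1/2 < q_j < 1` otherwise, with `∑ max(1 - q_j, 0) < 2` and `1 + ∑ (q_j - p_j)/2 ≤ p_0` (possible since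
`2 p_0 + ∑ min(p_j, 1) > k` and `p_0 > 1`); `(1; q_j)` is in `D_k(M)` by `S_DOM`; lower the coordinates one after the
other; `ContinuesTo.up`. -/
def S_DOM2 : Prop := ∀ (k M : ℕ) (p : Fin (k + 1) → ℝ), 1 ≤ M → 1 < p 0 → (∀ j : Fin k, 1 / 2 ≤ p j.succ) →
  (k : ℝ) < 2 * p 0 + ∑ j : Fin k, min (p j.succ) 1 → ContinuesTo k M p

end

end Pool.Agent.Run7.h473.MD
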