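import Pool.Agent.Run7.h473.MD.Iface

set_option autoImplicit false

/-!
Project MD (helper473), second part: the smoothed moments.
-/

namespace Pool.Agent.Run7.h473.MD

open Complex Filter Topology MeasureTheory Set
open Pool.Agent.Q48.MDS Pool.Agent.N879.QM

noncomputable section

/-- SHI (no hypotheses; pure complex analysis, like M4A). `e^{-y} = (2πi)⁻¹ ∫_{(W)} Γ(w) y^{-w} dw` gives
`∑ a_d e^{-d/X} = (2πi)⁻¹ ∫_{(W)} D(w) Γ(w) X^w dw`, `D(w) = ∑ a_d d^{-w} = H(w)/(w-1)`. Write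
`H(w)/(w-1) = (H(w) - H(1))/(w-1) + H(1)/(w-1)`: the first function is holomorphic (`dslope`) and polynomially bounded, move its
line to `Re w = α`: `O(X^α)`; the second part is `H(1) (2πi)⁻¹ ∫_{(W)} Γ(w-1) X^w dw = H(1) X e^{-1/X} = H(1) X + O(1)`. -/
def S_SHI : Prop := ∀ (a : ℕ → ℂ) (W α α' W' : ℝ) (H : ℂ → ℂ), a 0 = 0 → 0 < α' → α' < α → α < 1 → 1 < W → W < W' →
  Summable (fun d : ℕ => ‖a d‖ * (d : ℝ) ^ (-W)) → DifferentiableOn ℂ H {w | α' < w.re ∧ w.re < W'} →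
  (∃ (C : ℝ) (N : ℕ), ∀ w : ℂ, α ≤ w.re → w.re ≤ W → ‖H w‖ ≤ C * (1 + |w.im|) ^ N) →
  (∀ w : ℂ, w.re = W → H w = (w - 1) * ∑' d : ℕ, a d * (d : ℂ) ^ (-w)) →
  ∃ C : ℝ, ∀ X : ℝ, 1 ≤ X → ‖∑' d : ℕ, a d * ((Real.exp (-(d / X)) : ℝ) : ℂ) - H 1 * X‖ ≤ C * X ^ α

open Classical in
/-- ASY (from `S_SHI`, `S_DOM`, `S_EQ`, `S_BIG`, `S_LBD`). Let `p = (1; Re s_j)`, in `D_k(M)` by `S_DOM`; as at the beginning of
`REF` take `Ω` convex and open, containing `p`, `orth` and `V = {w > k+1, s_i > 0}`, with `G` tempered, `G = Hs * PP` on the tube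
over `V`. Choose `η > 0` with `(1 - 2η; Re s_j)` in `Ω`, `η < 1/4`, `Re s_j - 1/2 > 2η` for all `j`. With `W = k + 2`: the segment
from `(1 - 2η; Re s)` to `(W + 1; Re s)` lies in `Ω`. Put `H(w) = G(w, s) / ∏_{J ≠ ∅} (σ_J(w) - 1)`: for `J ≠ ∅` and
`Re w ≥ 1 - 2η` one has `Re (σ_J(w) - 1) = Re w - 1 + ∑_{j ∈ J} (Re s_j - 1/2) > 0`, bounded below on `Re w ≥ 1 - η`. So `H` is
holomorphic and polynomially bounded, `H(w) = (w - 1) Hs(w, s)` for `Re w > k+1`; `S_SHI` with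
`a_d = χ_d(M) ∏ L(s_j, χ_d)`, `|a_d| ≤ C d^k` (`S_LBD`), `α = 1 - η`. -/
def S_ASY : Prop := ∀ (k M : ℕ) (s : Fin k → ℂ), 1 ≤ M → (∀ j, 1 / 2 < (s j).re) →
  ∑ j : Fin k, max (1 - (s j).re) 0 < 2 → ∃ (c : ℂ) (δ C : ℝ), 0 < δ ∧ ∀ X : ℝ, 1 ≤ X →
    ‖∑' d : ℕ, (if Is 1 d then vl 1 d M * (∏ j : Fin k, LL 1 d (s j)) * ((Real.exp (-(d / X)) : ℝ) : ℂ) else 0) -
      c * X‖ ≤ C * X ^ (1 - δ)

end

end Pool.Agent.Run7.h473.MD
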