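import Pool.Agent.Run7.h473.MD.Iface2

set_option autoImplicit false

/-!
Project MD (helper473), third part: the smoothed moments with the explicit constant `T_M(s)` of the page.
-/

namespace Pool.Agent.Run7.h473.MD

open Complex Filter Topology MeasureTheory Set
open Pool.Agent.Q48.MDS Pool.Agent.N879.QM

noncomputable section

open Classical in
/-- the smoothed moment -/
def asum (k M : ℕ) (s : Fin k → ℂ) (X : ℝ) : ℂ :=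
  ∑' d : ℕ, (if Is 1 d then vl 1 d M * (∏ j : Fin k, LL 1 d (s j)) * ((Real.exp (-(d / X)) : ℝ) : ℂ) else 0)

open Classical in
/-- the terms of `T_M` -/
def tmt (k M : ℕ) (s : Fin k → ℂ) (n : Fin k → ℕ) : ℂ :=
  if (∀ j, 1 ≤ n j) ∧ IsSquare (M * ∏ j, n j) then (af (M * ∏ j, n j) : ℂ) * ∏ j, (n j : ℂ) ^ (-(s j)) else 0

/-- `T_M(s) = (2 ζ(2))⁻¹ ∑_{M n_1 ⋯ n_k = □} a(M n_1 ⋯ n_k) ∏ n_j^{-s_j}`; `c0 = 3/π² = 1/(2 ζ(2))` -/
def TM (k M : ℕ) (s : Fin k → ℂ) : ℂ := (c0 : ℂ) * ∑' n : Fin k → ℕ, tmt k M s n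

/-- ASYG (from `S_SHI`, `S_DOM`, `S_EQ`, `S_BIG`, `S_LBD`; replaces ASY). As in `S_ASY`: for `Ω` convex, open, containing
`orth`, `V` and `(1; Re s_j)`, with `G`, the constant for the point `s` is
`h = G(1, s) / ∏_{J ≠ ∅} (σ_J - 1)(1, s)`; the set `Ω` is closed upwards (`mem_of_ge`), so for `ζ` with `Re ζ > -η` the same `Ω`, `G`
serve for `s + ζ`, and `h ζ = G(1, s + ζ) / ∏_{J ≠ ∅} (...)` is holomorphic. -/
def S_ASYG : Prop := ∀ (k M : ℕ) (s : Fin k → ℂ), 1 ≤ M → (∀ j, 1 / 2 < (s j).re) →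
  ∑ j : Fin k, max (1 - (s j).re) 0 < 2 → ∃ (η : ℝ) (h : ℂ → ℂ), 0 < η ∧ DifferentiableOn ℂ h {ζ | -η < ζ.re} ∧
    ∀ ζ : ℂ, -η < ζ.re → ∃ δ C : ℝ, 0 < δ ∧ ∀ X : ℝ, 1 ≤ X →
      ‖asum k M (fun j => s j + ζ) X - h ζ * X‖ ≤ C * X ^ (1 - δ)

/-- CLIM (from `S_AVG`; `LL_series` of `Run7/h536/MD` gives `L(s, χ_d) = ∑ χ_d(n) n^{-s}` for `Re s > 1`). Tannery:
`asum / X = ∑_n ∏ n_j^{-s_j} (X⁻¹ ∑_d χ_d(M ∏ n_j) e^{-d/X})`, the inner sums are bounded by a constant (`∑_d e^{-d/X} ≤ X`), and by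
partial summation and `S_AVG` each tends to `c0 af(m)` if `m = M ∏ n_j` is a square and to `0` otherwise. -/
def S_CLIM : Prop := ∀ (k M : ℕ) (s : Fin k → ℂ), 1 ≤ M → (∀ j, 1 < (s j).re) →
  Tendsto (fun X : ℝ => asum k M s X / (X : ℂ)) atTop (𝓝 (TM k M s))

/-- THOL (no hypotheses). With `σ = min Re s_j > 1/2` one has `∏ n_j^{-Re s_j} ≤ (∏ n_j)^{-σ}` and the number of `n` with
`∏ n_j = N` is `≤ C N^ε`; `M N` a square means `N = M' b²` with `M'` the squarefree part of `M`; `∑_b (b²)^{-σ + ε} < ∞`. So `T_M(s)`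
converges absolutely for `Re s_j > 1/2`, and `ζ ↦ T_M(s + ζ)` is holomorphic (`differentiableOn_tsum_of_summable_norm`). -/
def S_THOL : Prop := ∀ (k M : ℕ) (s : Fin k → ℂ), 1 ≤ M → (∀ j, 1 / 2 < (s j).re) →
  Summable (fun n => ‖tmt k M s n‖) ∧
  ∃ η : ℝ, 0 < η ∧ DifferentiableOn ℂ (fun ζ => TM k M (fun j => s j + ζ)) {ζ | -η < ζ.re}

/-- CID (from `S_ASYG`, `S_CLIM`, `S_THOL`): the identity theorem on a half plane. -/
def S_CID : Prop := ∀ (k M : ℕ) (s : Fin k → ℂ), 1 ≤ M → (∀ j, 1 / 2 < (s j).re) →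
  ∑ j : Fin k, max (1 - (s j).re) 0 < 2 → ∃ δ C : ℝ, 0 < δ ∧ ∀ X : ℝ, 1 ≤ X →
    ‖asum k M s X - TM k M s * X‖ ≤ C * X ^ (1 - δ)

end

end Pool.Agent.Run7.h473.MD
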